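import Mathlib
import Pool.Agent.H66.W.Mix
import Pool.Agent.H33.Q1.Tile

set_option autoImplicit false
open Set Filter Topology

/-! # From the tile frame to the lattice frame (W-G)

`TIRot` : translation invariance is invariant under the multiplication by a complex number. `locTI_tv` : if the
functions `G' j` of the points of the tile grid have the property `LocTI`, then also `G' j (tv v)`. -/

namespace Pool.Agent.H26.W

open Pool.Agent.H33.Q1 Pool.Agent.Q1.M4
open Pool.Agent.Q1.M6f.Glue (TI)
open Pool.Agent.H66.W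

/-- translation invariance in another frame -/
def TIRot : Prop := ∀ (z a : ℂ) (r : ℝ) (g : ℂ → ℂ), a ≠ 0 → ContinuousOn g (Metric.ball z r) →
  TI (Metric.ball z r) g → TI (Metric.ball (z / a) (r / ‖a‖)) (fun w => g (a * w))

lemma lat_tv (v : ℤ × ℤ) : lat (tv v) = (1 - Complex.I) * lat v := by
  unfold lat tv
  apply Complex.ext
  · simp
  · simp; ring

lemma lat_sub (v w : ℤ × ℤ) : lat (v - w) = lat v - lat w := by
  apply Complex.ext <;> simp [lat]

lemma norm_one_sub_I : ‖(1 - Complex.I : ℂ)‖ = Real.sqrt 2 := by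
  rw [Complex.norm_def, Complex.normSq_apply]
  congr 1
  simp
  norm_num

lemma one_sub_I_ne : (1 - Complex.I : ℂ) ≠ 0 := by
  intro h
  have := norm_one_sub_I
  rw [h, norm_zero] at this
  have h2 : (0 : ℝ) < Real.sqrt 2 := by positivity
  linarith

lemma sqrt2_le : Real.sqrt 2 ≤ 2 := by
  rw [Real.sqrt_le_left (by norm_num)]; norm_num

lemma near_tv {R : ℝ} {v : ℤ × ℤ} {z : ℂ} {r : ℝ} (hr : 0 < r) (h : ‖lat v / (R : ℂ) - z‖ < r) :
    ‖lat (tv v) / (R : ℂ) - (1 - Complex.I) * z‖ < 2 * r := by
  rw [lat_tv, mul_div_assoc, ← mul_sub, norm_mul, norm_one_sub_I]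
  have h2 : (0 : ℝ) < Real.sqrt 2 := by positivity
  nlinarith [sqrt2_le]

variable {R : ℕ → ℝ} {U : Ultrafilter ℕ} {z : ℂ} {r : ℝ}

/-- **Change of the frame** -/
theorem locTI_tv (hT : TIRot) (hR : Tendsto R atTop atTop) (hU : (U : Filter ℕ) ≤ atTop) (hr : 0 < r)
    {G' : ℕ → ℤ × ℤ → ℂ} (h : LocTI R U G' ((1 - Complex.I) * z) (2 * r)) :
    LocTI R U (fun j v => G' j (tv v)) z r := by
  have hs0 : (0 : ℝ) < Real.sqrt 2 := by positivity
  have hRU : Tendsto R (U : Filter ℕ) atTop := hR.mono_left hU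
  refine ⟨?_, ?_⟩
  · obtain ⟨C, hC, hh⟩ := h.hold
    refine ⟨C * Real.sqrt 2 ^ (2 / 3 : ℝ), by positivity, ?_⟩
    filter_upwards [hh, hRU.eventually_gt_atTop 0] with j h1 h2 v w hv hw
    refine (h1 _ _ (near_tv hr hv) (near_tv hr hw)).trans (le_of_eq ?_)
    rw [lat_tv, lat_tv, ← mul_sub, norm_mul, norm_one_sub_I, mul_div_assoc,
      Real.mul_rpow hs0.le (by positivity)]
    ring
  · intro g hg
    obtain ⟨g', hg'⟩ := exists_gLim hR U hU (by positivity : 0 < 2 * r) h.hold
    have hti := h.ti g' hg'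
    have hc' : ContinuousOn g' (Metric.ball ((1 - Complex.I) * z) (2 * r)) := by
      obtain ⟨C, hC, hh⟩ := h.hold
      exact continuousOn_of_hold (C := C) one_pos fun w hw w' hw' _ => hg'.hold hR hU hh hw hw'
    have hball : ∀ w ∈ Metric.ball z r, (1 - Complex.I) * w ∈ Metric.ball ((1 - Complex.I) * z) (2 * r) := by
      intro w hw
      rw [Metric.mem_ball, dist_eq_norm] at hw ⊢
      rw [← mul_sub, norm_mul, norm_one_sub_I]
      nlinarith [sqrt2_le]
    have key : ∀ w ∈ Metric.ball z r, g w = g' ((1 - Complex.I) * w) - g' ((1 - Complex.I) * z) := by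
      intro w hw
      have a1 := hg w hw _ ((fl_tendsto hR w).mono_left hU)
      have t1 : Tendsto (fun j => lat (tv (fl R w j)) / (R j : ℂ)) U (𝓝 ((1 - Complex.I) * w)) := by
        have := ((fl_tendsto hR w).mono_left hU).const_mul (1 - Complex.I)
        refine this.congr fun j => ?_
        rw [lat_tv, mul_div_assoc]
      have t2 : Tendsto (fun j => lat (tv (fl R z j)) / (R j : ℂ)) U (𝓝 ((1 - Complex.I) * z)) := by
        have := ((fl_tendsto hR z).mono_left hU).const_mul (1 - Complex.I)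
        refine this.congr fun j => ?_
        rw [lat_tv, mul_div_assoc]
      have b1 := hg' _ (hball w hw) _ t1
      have b2 := hg' _ (hball z (Metric.mem_ball_self hr)) _ t2
      have b3 := b1.sub b2
      have b4 : Tendsto (fun j => G' j (tv (fl R w j)) - G' j (tv (fl R z j))) U
          (𝓝 (g' ((1 - Complex.I) * w) - g' ((1 - Complex.I) * z))) := by
        refine b3.congr fun j => ?_
        ring
      exact tendsto_nhds_unique a1 b4
    have h1 := hT _ (1 - Complex.I) _ g' one_sub_I_ne hc' hti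
    have hs : Metric.ball z r ⊆ Metric.ball ((1 - Complex.I) * z / (1 - Complex.I))
        (2 * r / ‖(1 - Complex.I : ℂ)‖) := by
      rw [mul_div_cancel_left₀ _ one_sub_I_ne, norm_one_sub_I]
      refine Metric.ball_subset_ball ?_
      rw [le_div_iff₀ hs0]
      nlinarith [sqrt2_le]
    have h2 := TI.mono h1 hs
    have hc : ContinuousOn (fun w => g' ((1 - Complex.I) * w)) (Metric.ball z r) :=
      hc'.comp (by fun_prop) hball
    have h3 := Pool.Agent.Q1.M6f.Glue.TI.lin hc continuousOn_const h2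
      (TI_const (Metric.ball z r) (g' ((1 - Complex.I) * z))) 1 (-1)
    refine TI.congr h3 fun w hw => ?_
    rw [key w hw]
    ring

end Pool.Agent.H26.W
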