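import Mathlib
import Pool.Agent.H26.W.Frame

set_option autoImplicit false
open Set Filter Topology MeasureTheory intervalIntegral

/-! # Translation invariant rectangle integrals are a multiple of the area (W-G)

`JJ_area` : `JJ g` of the small rectangles of a ball is a multiple of the area. `qh_of_TI` : `g` is holomorphic
up to a multiple of `conj z`. `tiRot : TIRot`. -/

namespace Pool.Agent.H26.W

open Pool.Agent.Q1.M6f.Glue
open Pool.Agent.H66.W

variable {Ω : Set ℂ} {g : ℂ → ℂ}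

lemma sub_rect {a b c d a' b' c' d' : ℝ} (h1 : a ≤ a') (h2 : b' ≤ b) (h3 : c ≤ c') (h4 : d' ≤ d) :
    Icc a' b' ×ℂ Icc c' d' ⊆ Icc a b ×ℂ Icc c d := by
  intro z hz
  rw [Complex.mem_reProdIm] at hz ⊢
  exact ⟨⟨h1.trans hz.1.1, hz.1.2.trans h2⟩, ⟨h3.trans hz.2.1, hz.2.2.trans h4⟩⟩

/-- additivity in the horizontal direction -/
lemma JJ_add_h (hg : ContinuousOn g Ω) {a x b c d : ℝ} (h1 : a ≤ x) (h2 : x ≤ b) (hcd : c ≤ d)
    (hR : Icc a b ×ℂ Icc c d ⊆ Ω) : JJ g a b c d = JJ g a x c d + JJ g x b c d := by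
  have hh : ∀ y ∈ Icc c d, (∫ t in a..x, g (t + y * Complex.I)) + (∫ t in x..b, g (t + y * Complex.I)) =
      ∫ t in a..b, g (t + y * Complex.I) := by
    intro y hy
    refine integral_add_adjacent_intervals (ii_hor hg h1 fun t ht => hR (mem_rect ⟨ht.1, ht.2.trans h2⟩ hy))
      (ii_hor hg h2 fun t ht => hR (mem_rect ⟨h1.trans ht.1, ht.2⟩ hy))
  unfold JJ
  rw [← hh c ⟨le_rfl, hcd⟩, ← hh d ⟨hcd, le_rfl⟩]
  ring

/-- additivity in the vertical direction -/
lemma JJ_add_v (hg : ContinuousOn g Ω) {a b c y d : ℝ} (hab : a ≤ b) (h1 : c ≤ y) (h2 : y ≤ d)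
    (hR : Icc a b ×ℂ Icc c d ⊆ Ω) : JJ g a b c d = JJ g a b c y + JJ g a b y d := by
  have hh : ∀ x ∈ Icc a b, (∫ t in c..y, g (x + t * Complex.I)) + (∫ t in y..d, g (x + t * Complex.I)) =
      ∫ t in c..d, g (x + t * Complex.I) := by
    intro x hx
    refine integral_add_adjacent_intervals (ii_ver hg h1 fun t ht => hR (mem_rect hx ⟨ht.1, ht.2.trans h2⟩))
      (ii_ver hg h2 fun t ht => hR (mem_rect hx ⟨h1.trans ht.1, ht.2⟩))
  unfold JJ
  rw [← hh a ⟨le_rfl, hab⟩, ← hh b ⟨hab, le_rfl⟩]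
  ring

lemma JJ_degen_h (g : ℂ → ℂ) (a c d : ℝ) : JJ g a a c d = 0 := by
  unfold JJ; simp

lemma JJ_degen_v (g : ℂ → ℂ) (a b c : ℝ) : JJ g a b c c = 0 := by
  unfold JJ; simp

/-- `k` translates in the horizontal direction -/
lemma JJ_mul_h (hg : ContinuousOn g Ω) (hT : TI Ω g) {a s c d : ℝ} (hs : 0 < s) (hcd : c < d) (k : ℕ)
    (hR : Icc a (a + k * s) ×ℂ Icc c d ⊆ Ω) (hk : 0 < k) :
    JJ g a (a + k * s) c d = k * JJ g a (a + s) c d := by
  induction k with
  | zero => omega
  | succ k ih =>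
    rcases Nat.eq_zero_or_pos k with rfl | hk0
    · simp
    have hks : (0 : ℝ) < k * s := mul_pos (by exact_mod_cast hk0) hs
    have e : a + ((k + 1 : ℕ) : ℝ) * s = a + k * s + s := by push_cast; ring
    rw [e] at hR ⊢
    rw [JJ_add_h hg (by linarith) (by linarith : a + k * s ≤ a + k * s + s) hcd.le hR,
      ih ((sub_rect le_rfl (by linarith) le_rfl le_rfl).trans hR) hk0]
    have h1 := hT a (a + s) c d (k * s) 0 (by linarith) hcd
      ((sub_rect le_rfl (by linarith) le_rfl le_rfl).trans hR) (by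
        refine (sub_rect (by linarith) (by linarith) (by linarith) (by linarith)).trans hR)
    have e1 : a + s + k * s = a + k * s + s := by ring
    rw [add_zero, add_zero, e1] at h1
    rw [← h1]
    push_cast
    ring

/-- `k` translates in the vertical direction -/
lemma JJ_mul_v (hg : ContinuousOn g Ω) (hT : TI Ω g) {a b c t : ℝ} (hab : a < b) (ht : 0 < t) (k : ℕ)
    (hR : Icc a b ×ℂ Icc c (c + k * t) ⊆ Ω) (hk : 0 < k) :
    JJ g a b c (c + k * t) = k * JJ g a b c (c + t) := by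
  induction k with
  | zero => omega
  | succ k ih =>
    rcases Nat.eq_zero_or_pos k with rfl | hk0
    · simp
    have hks : (0 : ℝ) < k * t := mul_pos (by exact_mod_cast hk0) ht
    have e : c + ((k + 1 : ℕ) : ℝ) * t = c + k * t + t := by push_cast; ring
    rw [e] at hR ⊢
    rw [JJ_add_v hg hab.le (by linarith) (by linarith : c + k * t ≤ c + k * t + t) hR,
      ih ((sub_rect le_rfl le_rfl le_rfl (by linarith)).trans hR) hk0]
    have h1 := hT a b c (c + t) 0 (k * t) hab (by linarith)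
      ((sub_rect le_rfl le_rfl le_rfl (by linarith)).trans hR) (by
        refine (sub_rect (by linarith) (by linarith) (by linarith) (by linarith)).trans hR)
    have e1 : c + t + k * t = c + k * t + t := by ring
    rw [add_zero, add_zero, e1] at h1
    rw [← h1]
    push_cast
    ring

/-- number of steps -/
lemma exists_steps {w s : ℝ} (hw : 0 ≤ w) (hs : 0 < s) : ∃ k : ℕ, ∃ t : ℝ, w = k * s + t ∧ 0 ≤ t ∧ t < s := by
  refine ⟨⌊w / s⌋₊, w - ⌊w / s⌋₊ * s, by ring, ?_, ?_⟩
  · have := Nat.floor_le (div_nonneg hw hs.le)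
    rw [le_div_iff₀ hs] at this
    linarith
  · have := Nat.lt_floor_add_one (w / s)
    rw [div_lt_iff₀ hs] at this
    linarith

/-- a thin rectangle -/
lemma JJ_thin (hg : ContinuousOn g Ω) (hT : TI Ω g) {a b c d s M : ℝ} (hab : a < b) (hs : b - a ≤ s)
    (hcd : c < d) (hR : Icc a b ×ℂ Icc c d ⊆ Ω) (hM0 : 0 ≤ M)
    (hM : ∀ z ∈ Icc a b ×ℂ Icc c d, ∀ z' ∈ Icc a b ×ℂ Icc c d, |z.im - z'.im| ≤ s →
      ‖g z - g z'‖ ≤ M) : ‖JJ g a b c d‖ ≤ 2 * M * ((d - c) + 2 * s) := by
  have hs0 : 0 < s := by linarith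
  obtain ⟨k, t, e, ht0, ht⟩ := exists_steps (by linarith : 0 ≤ d - c) hs0
  have small : ∀ c' d' : ℝ, c ≤ c' → d' ≤ d → c' ≤ d' → d' - c' ≤ s → ‖JJ g a b c' d'‖ ≤ 2 * M * s := by
    intro c' d' h1 h2 h3 h4
    have hsub := sub_rect (le_refl a) (le_refl b) h1 h2
    refine (JJ_le hg hab.le h3 (hsub.trans hR) (M := M) fun z hz z' hz' => ?_).trans ?_
    · refine hM z (hsub hz) z' (hsub hz') ?_
      rw [Complex.mem_reProdIm] at hz hz'
      rw [abs_le]
      constructor <;> linarith [hz.2.1, hz.2.2, hz'.2.1, hz'.2.2]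
    · nlinarith
  rcases Nat.eq_zero_or_pos k with rfl | hk
  · have h1 := small c d le_rfl le_rfl hcd.le (by rw [e]; push_cast; linarith)
    nlinarith
  have hks : (0 : ℝ) < k * s := mul_pos (by exact_mod_cast hk) hs0
  have ed : d = c + k * s + t := by linarith
  have h1 : JJ g a b c d = JJ g a b c (c + k * s) + JJ g a b (c + k * s) d :=
    JJ_add_v hg hab.le (by linarith) (by linarith) hR
  have h2 := JJ_mul_v hg hT hab hs0 k ((sub_rect le_rfl le_rfl le_rfl (by linarith)).trans hR) hk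
  have hk1 : (1 : ℝ) ≤ k := by exact_mod_cast hk
  have h3 := small c (c + s) le_rfl (by nlinarith) (by linarith) (by linarith)
  have h4 := small (c + k * s) d (by linarith) le_rfl (by linarith) (by linarith)
  rw [h1, h2]
  calc ‖(k : ℂ) * JJ g a b c (c + s) + JJ g a b (c + k * s) d‖ ≤ k * (2 * M * s) + 2 * M * s := by
        refine (norm_add_le _ _).trans (add_le_add ?_ h4)
        rw [norm_mul, Complex.norm_natCast]
        exact mul_le_mul_of_nonneg_left h3 (by positivity)
    _ ≤ _ := by nlinarith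

/-- a thin rectangle, the other direction -/
lemma JJ_thin' (hg : ContinuousOn g Ω) (hT : TI Ω g) {a b c d s M : ℝ} (hcd : c < d) (hs : d - c ≤ s)
    (hab : a < b) (hR : Icc a b ×ℂ Icc c d ⊆ Ω) (hM0 : 0 ≤ M)
    (hM : ∀ z ∈ Icc a b ×ℂ Icc c d, ∀ z' ∈ Icc a b ×ℂ Icc c d, |z.re - z'.re| ≤ s →
      ‖g z - g z'‖ ≤ M) : ‖JJ g a b c d‖ ≤ 2 * M * ((b - a) + 2 * s) := by
  have hs0 : 0 < s := by linarith
  obtain ⟨k, t, e, ht0, ht⟩ := exists_steps (by linarith : 0 ≤ b - a) hs0
  have small : ∀ a' b' : ℝ, a ≤ a' → b' ≤ b → a' ≤ b' → b' - a' ≤ s → ‖JJ g a' b' c d‖ ≤ 2 * M * s := by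
    intro a' b' h1 h2 h3 h4
    have hsub := sub_rect h1 h2 (le_refl c) (le_refl d)
    refine (JJ_le hg h3 hcd.le (hsub.trans hR) (M := M) fun z hz z' hz' => ?_).trans ?_
    · refine hM z (hsub hz) z' (hsub hz') ?_
      rw [Complex.mem_reProdIm] at hz hz'
      rw [abs_le]
      constructor <;> linarith [hz.1.1, hz.1.2, hz'.1.1, hz'.1.2]
    · nlinarith
  rcases Nat.eq_zero_or_pos k with rfl | hk
  · have h1 := small a b le_rfl le_rfl hab.le (by rw [e]; push_cast; linarith)
    nlinarith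
  have hks : (0 : ℝ) < k * s := mul_pos (by exact_mod_cast hk) hs0
  have h1 : JJ g a b c d = JJ g a (a + k * s) c d + JJ g (a + k * s) b c d :=
    JJ_add_h hg (by linarith) (by linarith) hcd.le hR
  have h2 := JJ_mul_h hg hT hs0 hcd k ((sub_rect le_rfl (by linarith) le_rfl le_rfl).trans hR) hk
  have hk1 : (1 : ℝ) ≤ k := by exact_mod_cast hk
  have h3 := small a (a + s) le_rfl (by nlinarith) (by linarith) (by linarith)
  have h4 := small (a + k * s) b (by linarith) le_rfl (by linarith) (by linarith)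
  rw [h1, h2]
  calc ‖(k : ℂ) * JJ g a (a + s) c d + JJ g (a + k * s) b c d‖ ≤ k * (2 * M * s) + 2 * M * s := by
        refine (norm_add_le _ _).trans (add_le_add ?_ h4)
        rw [norm_mul, Complex.norm_natCast]
        exact mul_le_mul_of_nonneg_left h3 (by positivity)
    _ ≤ _ := by nlinarith

/-- **If the rectangle integral of one square vanishes, then all vanish.** -/
theorem JJ_zero_of_square (hg : ContinuousOn g Ω) (hT : TI Ω g) {a0 c0 ρ : ℝ} (hρ : 0 < ρ)
    (hS : Icc a0 (a0 + ρ) ×ℂ Icc c0 (c0 + ρ) ⊆ Ω) (h0 : JJ g a0 (a0 + ρ) c0 (c0 + ρ) = 0) {a b c d : ℝ}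
    (hab : a < b) (hcd : c < d) (hR : Icc a b ×ℂ Icc c d ⊆ Ω) : JJ g a b c d = 0 := by
  -- small squares
  have hsq : ∀ n : ℕ, 0 < n → ∀ a' c' : ℝ, Icc a' (a' + ρ / n) ×ℂ Icc c' (c' + ρ / n) ⊆ Ω →
      JJ g a' (a' + ρ / n) c' (c' + ρ / n) = 0 := by
    intro n hn a' c' hsub
    have hn' : (0 : ℝ) < n := by exact_mod_cast hn
    have hs : 0 < ρ / n := by positivity
    have e1 := JJ_split hg (by linarith : a0 < a0 + ρ) (by linarith : c0 < c0 + ρ) hS hn
    rw [h0, add_sub_cancel_left, add_sub_cancel_left] at e1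
    have hns : (n : ℝ) * (ρ / n) = ρ := by field_simp
    have e2 : ∀ i ∈ Finset.range n, ∀ k ∈ Finset.range n,
        JJ g (a0 + i * (ρ / n)) (a0 + (i + 1 : ℕ) * (ρ / n)) (c0 + k * (ρ / n))
          (c0 + (k + 1 : ℕ) * (ρ / n)) = JJ g a' (a' + ρ / n) c' (c' + ρ / n) := by
      intro i hi k hk
      have hi' : ((i : ℝ) + 1) ≤ n := by exact_mod_cast Finset.mem_range.1 hi
      have hk' : ((k : ℝ) + 1) ≤ n := by exact_mod_cast Finset.mem_range.1 hk
      have hi0 : (0 : ℝ) ≤ i := Nat.cast_nonneg _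
      have hk0 : (0 : ℝ) ≤ k := Nat.cast_nonneg _
      have g1 : a' + (a0 + i * (ρ / n) - a') = a0 + i * (ρ / n) := by ring
      have g2 : a' + ρ / n + (a0 + i * (ρ / n) - a') = a0 + (i + 1 : ℕ) * (ρ / n) := by push_cast; ring
      have g3 : c' + (c0 + k * (ρ / n) - c') = c0 + k * (ρ / n) := by ring
      have g4 : c' + ρ / n + (c0 + k * (ρ / n) - c') = c0 + (k + 1 : ℕ) * (ρ / n) := by push_cast; ring
      have h1 := hT a' (a' + ρ / n) c' (c' + ρ / n) (a0 + i * (ρ / n) - a') (c0 + k * (ρ / n) - c')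
        (by linarith) (by linarith) hsub (by
          rw [g1, g2, g3, g4]
          refine (sub_rect ?_ ?_ ?_ ?_).trans hS
          · nlinarith
          · push_cast; nlinarith
          · nlinarith
          · push_cast; nlinarith)
      rw [g1, g2, g3, g4] at h1
      exact h1.symm
    rw [Finset.sum_congr rfl fun i hi => Finset.sum_congr rfl fun k hk => e2 i hi k hk,
      Finset.sum_const, Finset.sum_const, Finset.card_range, nsmul_eq_mul, nsmul_eq_mul] at e1
    have hnC : (n : ℂ) ≠ 0 := by exact_mod_cast hn.ne'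
    have e3 : (n : ℂ) * ((n : ℂ) * JJ g a' (a' + ρ / n) c' (c' + ρ / n)) = 0 := e1.symm
    have e4 := (mul_eq_zero.1 e3).resolve_left hnC
    exact (mul_eq_zero.1 e4).resolve_left hnC
  -- uniform continuity
  have hK : IsCompact (Icc a b ×ℂ Icc c d) := isCompact_Icc.reProdIm isCompact_Icc
  have hu := hK.uniformContinuousOn_of_continuous (hg.mono hR)
  rw [Metric.uniformContinuousOn_iff] at hu
  by_contra hne
  have hpos : 0 < ‖JJ g a b c d‖ := norm_pos_iff.2 hne
  set L : ℝ := (b - a) + (d - c) with hL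
  have hL0 : 0 < L := by rw [hL]; linarith
  obtain ⟨δ, hδ, hδ'⟩ := hu (‖JJ g a b c d‖ / (16 * L)) (by positivity)
  obtain ⟨n, hn⟩ := exists_nat_gt (max (2 * ρ / δ) (max (ρ / (b - a)) (ρ / (d - c))))
  have hn1 : 2 * ρ / δ < n := (le_max_left _ _).trans_lt hn
  have hn2 : ρ / (b - a) < n := ((le_max_left _ _).trans (le_max_right _ _)).trans_lt hn
  have hn3 : ρ / (d - c) < n := ((le_max_right _ _).trans (le_max_right _ _)).trans_lt hn
  have hn0 : (0 : ℝ) < n := lt_of_le_of_lt (by positivity) hn1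
  have hnN : 0 < n := by exact_mod_cast hn0
  set s := ρ / n with hs
  have hs0 : 0 < s := by positivity
  have hsδ : 2 * s < δ := by
    rw [div_lt_iff₀ hδ] at hn1
    rw [hs, mul_div_assoc', div_lt_iff₀ hn0]
    linarith
  have hsb : s < b - a := by
    rw [div_lt_iff₀ (by linarith)] at hn2
    rw [hs, div_lt_iff₀ hn0]
    linarith
  have hsd : s < d - c := by
    rw [div_lt_iff₀ (by linarith)] at hn3
    rw [hs, div_lt_iff₀ hn0]
    linarith
  obtain ⟨k, t1, ek, k0, k1⟩ := exists_steps (by linarith : 0 ≤ b - a) hs0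
  obtain ⟨l, t2, el, l0, l1⟩ := exists_steps (by linarith : 0 ≤ d - c) hs0
  have hk : 0 < k := by
    rcases Nat.eq_zero_or_pos k with rfl | h
    · push_cast at ek; linarith
    · exact h
  have hl : 0 < l := by
    rcases Nat.eq_zero_or_pos l with rfl | h
    · push_cast at el; linarith
    · exact h
  have hk1 : (1 : ℝ) ≤ k := by exact_mod_cast hk
  have hl1 : (1 : ℝ) ≤ l := by exact_mod_cast hl
  have ks : s ≤ k * s := by nlinarith
  have ls : s ≤ l * s := by nlinarith
  have eb : b = a + k * s + t1 := by linarith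
  have ed : d = c + l * s + t2 := by linarith
  -- the decomposition
  have d1 : JJ g a b c d = JJ g a (a + k * s) c d + JJ g (a + k * s) b c d :=
    JJ_add_h hg (by linarith) (by linarith) hcd.le hR
  have hR1 : Icc a (a + k * s) ×ℂ Icc c d ⊆ Icc a b ×ℂ Icc c d :=
    sub_rect le_rfl (by linarith) le_rfl le_rfl
  have d2 : JJ g a (a + k * s) c d = JJ g a (a + k * s) c (c + l * s) +
      JJ g a (a + k * s) (c + l * s) d :=
    JJ_add_v hg (by linarith) (by linarith) (by linarith) (hR1.trans hR)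
  have hR2 : Icc a (a + k * s) ×ℂ Icc c (c + l * s) ⊆ Icc a b ×ℂ Icc c d :=
    sub_rect le_rfl (by linarith) le_rfl (by linarith)
  have d3 : JJ g a (a + k * s) c (c + l * s) = 0 := by
    rw [JJ_mul_h hg hT hs0 (by linarith) k (hR2.trans hR) hk,
      JJ_mul_v hg hT (by linarith) hs0 l
        ((sub_rect le_rfl (by linarith) le_rfl (by linarith)).trans hR) hl,
      hsq n hnN a c ((sub_rect le_rfl (by linarith) le_rfl (by linarith)).trans hR), mul_zero, mul_zero]
  set M : ℝ := ‖JJ g a b c d‖ / (16 * L) with hM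
  have hM0 : 0 ≤ M := by positivity
  have osc : ∀ z ∈ Icc a b ×ℂ Icc c d, ∀ z' ∈ Icc a b ×ℂ Icc c d, |z.re - z'.re| ≤ s →
      |z.im - z'.im| ≤ s → ‖g z - g z'‖ ≤ M := by
    intro z hz z' hz' h1 h2
    have h3 : dist z z' < δ := by
      rw [dist_eq_norm]
      refine (Complex.norm_le_abs_re_add_abs_im _).trans_lt ?_
      rw [Complex.sub_re, Complex.sub_im]
      linarith
    have := hδ' z hz z' hz' h3
    rw [dist_eq_norm] at this
    exact this.le
  have d4 : ‖JJ g (a + k * s) b c d‖ ≤ 2 * M * ((d - c) + 2 * s) := by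
    rcases k0.eq_or_lt with h | h
    · have e : a + k * s = b := by linarith
      rw [e, JJ_degen_h, norm_zero]
      have : 0 < d - c := by linarith
      positivity
    · have hsub : Icc (a + k * s) b ×ℂ Icc c d ⊆ Icc a b ×ℂ Icc c d :=
        sub_rect (by linarith) le_rfl le_rfl le_rfl
      refine JJ_thin hg hT (by linarith) (by linarith) hcd (hsub.trans hR) hM0
        fun z hz z' hz' h1 => osc z (hsub hz) z' (hsub hz') ?_ h1
      rw [Complex.mem_reProdIm] at hz hz'
      rw [abs_le]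
      constructor <;> linarith [hz.1.1, hz.1.2, hz'.1.1, hz'.1.2]
  have d5 : ‖JJ g a (a + k * s) (c + l * s) d‖ ≤ 2 * M * ((b - a) + 2 * s) := by
    rcases l0.eq_or_lt with h | h
    · have e : c + l * s = d := by linarith
      rw [e, JJ_degen_v, norm_zero]
      have : 0 < b - a := by linarith
      positivity
    · have hsub : Icc a (a + k * s) ×ℂ Icc (c + l * s) d ⊆ Icc a b ×ℂ Icc c d :=
        sub_rect le_rfl (by linarith) (by linarith) le_rfl
      refine (JJ_thin' hg hT (by linarith) (by linarith) (by linarith) (hsub.trans hR) hM0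
        fun z hz z' hz' h1 => osc z (hsub hz) z' (hsub hz') h1 ?_).trans ?_
      · rw [Complex.mem_reProdIm] at hz hz'
        rw [abs_le]
        constructor <;> linarith [hz.2.1, hz.2.2, hz'.2.1, hz'.2.2]
      · refine mul_le_mul_of_nonneg_left ?_ (by positivity)
        linarith
  have d6 : ‖JJ g a b c d‖ ≤ 2 * M * ((b - a) + 2 * s) + 2 * M * ((d - c) + 2 * s) := by
    conv_lhs => rw [d1, d2, d3, zero_add]
    exact (norm_add_le _ _).trans (add_le_add d5 d4)
  have d7 : 2 * M * ((b - a) + 2 * s) + 2 * M * ((d - c) + 2 * s) ≤ 6 * M * L := by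
    have : 4 * s ≤ 2 * L := by rw [hL]; linarith
    nlinarith
  have d8 : 6 * M * L = 6 / 16 * ‖JJ g a b c d‖ := by
    rw [hM]; field_simp
  linarith

lemma cont_conj (S : Set ℂ) : ContinuousOn (fun z : ℂ => (starRingEnd ℂ) z) S :=
  Complex.continuous_conj.continuousOn

/-- the rectangle integral of `conj z` -/
lemma JJ_conj (a b c d : ℝ) :
    JJ (fun z => (starRingEnd ℂ) z) a b c d = -2 * Complex.I * (((b - a) * (d - c) : ℝ) : ℂ) := by
  have e1 : ∀ y : ℝ, (∫ x in a..b, (starRingEnd ℂ) ((x : ℂ) + y * Complex.I)) =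
      (∫ x in a..b, (x : ℂ)) - (y * Complex.I) * (b - a) := by
    intro y
    have : ∀ x : ℝ, (starRingEnd ℂ) ((x : ℂ) + y * Complex.I) = (x : ℂ) - y * Complex.I := by
      intro x
      simp only [map_add, map_mul, Complex.conj_ofReal, Complex.conj_I]
      ring
    simp only [this]
    rw [intervalIntegral.integral_sub (Continuous.intervalIntegrable (by fun_prop) _ _)
      (Continuous.intervalIntegrable (by fun_prop) _ _), intervalIntegral.integral_const]
    rw [Complex.real_smul]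
    push_cast
    ring
  have e2 : ∀ x : ℝ, (∫ y in c..d, (starRingEnd ℂ) ((x : ℂ) + y * Complex.I)) =
      x * (d - c) - Complex.I * (∫ y in c..d, (y : ℂ)) := by
    intro x
    have : ∀ y : ℝ, (starRingEnd ℂ) ((x : ℂ) + y * Complex.I) = (x : ℂ) - Complex.I * y := by
      intro y
      simp only [map_add, map_mul, Complex.conj_ofReal, Complex.conj_I]
      ring
    simp only [this]
    rw [intervalIntegral.integral_sub (Continuous.intervalIntegrable (by fun_prop) _ _)
      (Continuous.intervalIntegrable (by fun_prop) _ _), intervalIntegral.integral_const,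
      intervalIntegral.integral_const_mul]
    rw [Complex.real_smul]
    push_cast
    ring
  unfold JJ
  rw [e1, e1, e2, e2]
  push_cast
  ring

/-- **Translation invariance = holomorphic up to a multiple of `conj z`.** -/
theorem qh_of_TI (hΩ : IsOpen Ω) (hg : ContinuousOn g Ω) (hT : TI Ω g) :
    ∃ κ : ℂ, DifferentiableOn ℂ (fun z => g z - κ * (starRingEnd ℂ) z) Ω := by
  rcases Ω.eq_empty_or_nonempty with rfl | ⟨z0, hz0⟩
  · exact ⟨0, differentiableOn_empty⟩
  obtain ⟨r, hr, hb⟩ := Metric.isOpen_iff.1 hΩ z0 hz0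
  set ρ := r / 2 with hρ
  have hρ0 : 0 < ρ := by positivity
  have hS : Icc z0.re (z0.re + ρ) ×ℂ Icc z0.im (z0.im + ρ) ⊆ Ω := by
    intro z hz
    apply hb
    rw [Complex.mem_reProdIm] at hz
    rw [Metric.mem_ball, dist_eq_norm]
    have h1 : ‖z - z0‖ ^ 2 < r ^ 2 := by
      rw [Complex.sq_norm, Complex.normSq_apply, Complex.sub_re, Complex.sub_im]
      have a1 : 0 ≤ z.re - z0.re := by linarith [hz.1.1]
      have a2 : z.re - z0.re ≤ ρ := by linarith [hz.1.2]
      have a3 : 0 ≤ z.im - z0.im := by linarith [hz.2.1]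
      have a4 : z.im - z0.im ≤ ρ := by linarith [hz.2.2]
      nlinarith
    exact lt_of_pow_lt_pow_left₀ 2 hr.le h1
  set κ : ℂ := JJ g z0.re (z0.re + ρ) z0.im (z0.im + ρ) / (-2 * Complex.I * ((ρ * ρ : ℝ) : ℂ)) with hκ
  have hne : (-2 * Complex.I * ((ρ * ρ : ℝ) : ℂ)) ≠ 0 := by
    have : ((ρ * ρ : ℝ) : ℂ) ≠ 0 := by
      exact_mod_cast (mul_pos hρ0 hρ0).ne'
    refine mul_ne_zero (mul_ne_zero (by norm_num) Complex.I_ne_zero) this
  have hTc : TI Ω (fun z => (starRingEnd ℂ) z) := by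
    intro a b c d x y _ _ _ _
    rw [JJ_conj, JJ_conj, show (b + x - (a + x)) * (d + y - (c + y)) = (b - a) * (d - c) by ring]
  have hF : ContinuousOn (fun z => (1 : ℂ) * g z + (-κ) * (starRingEnd ℂ) z) Ω :=
    (continuousOn_const.mul hg).add (continuousOn_const.mul (cont_conj Ω))
  have hTF := TI.lin hg (cont_conj Ω) hT hTc 1 (-κ)
  have hz : JJ (fun z => (1 : ℂ) * g z + (-κ) * (starRingEnd ℂ) z) z0.re (z0.re + ρ) z0.im (z0.im + ρ) = 0 := by
    rw [JJ_lin hg (cont_conj Ω) 1 (-κ) (by linarith) (by linarith) hS, JJ_conj, add_sub_cancel_left,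
      add_sub_cancel_left, hκ, neg_mul, div_mul_cancel₀ _ hne]
    ring
  refine ⟨κ, (differentiableOn_of_JJ hΩ hF fun a b c d hab hcd hR =>
    JJ_zero_of_square hF hTF hρ0 hS hz hab hcd hR).congr fun z _ => by ring⟩

/-- rectangle integrals of holomorphic functions vanish -/
lemma JJ_holo (hg : DifferentiableOn ℂ g Ω) {a b c d : ℝ} (hab : a < b) (hcd : c < d)
    (hR : Icc a b ×ℂ Icc c d ⊆ Ω) : JJ g a b c d = 0 := by
  have h := Complex.integral_boundary_rect_eq_zero_of_differentiableOn g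
    ((a : ℂ) + c * Complex.I) ((b : ℂ) + d * Complex.I) (by
      have e1 : ((a : ℂ) + c * Complex.I).re = a := by simp
      have e2 : ((b : ℂ) + d * Complex.I).re = b := by simp
      have e3 : ((a : ℂ) + c * Complex.I).im = c := by simp
      have e4 : ((b : ℂ) + d * Complex.I).im = d := by simp
      rw [e1, e2, e3, e4, uIcc_of_le hab.le, uIcc_of_le hcd.le]
      exact hg.mono hR)
  have e1 : ((a : ℂ) + c * Complex.I).re = a := by simp
  have e2 : ((b : ℂ) + d * Complex.I).re = b := by simp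
  have e3 : ((a : ℂ) + c * Complex.I).im = c := by simp
  have e4 : ((b : ℂ) + d * Complex.I).im = d := by simp
  rw [e1, e2, e3, e4] at h
  simp only [smul_eq_mul] at h
  unfold JJ
  linear_combination -h

/-- the converse -/
theorem ti_of_qh (hg : ContinuousOn g Ω) {κ : ℂ}
    (h : DifferentiableOn ℂ (fun z => g z - κ * (starRingEnd ℂ) z) Ω) : TI Ω g := by
  have e : ∀ a b c d : ℝ, a < b → c < d → Icc a b ×ℂ Icc c d ⊆ Ω →
      JJ g a b c d = κ * (-2 * Complex.I * (((b - a) * (d - c) : ℝ) : ℂ)) := by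
    intro a b c d hab hcd hR
    have h1 := JJ_holo h hab hcd hR
    have h2 : (fun z => g z - κ * (starRingEnd ℂ) z) = fun z => (1 : ℂ) * g z + (-κ) * (starRingEnd ℂ) z := by
      funext z; ring
    rw [h2, JJ_lin hg (cont_conj Ω) 1 (-κ) hab.le hcd.le hR, JJ_conj] at h1
    linear_combination h1
  intro a b c d x y hab hcd hR hR'
  rw [e a b c d hab hcd hR, e _ _ _ _ (by linarith) (by linarith) hR',
    show (b + x - (a + x)) * (d + y - (c + y)) = (b - a) * (d - c) by ring]

/-- **Translation invariance in another frame** -/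
theorem tiRot : TIRot := by
  intro z a r g ha hg hT
  obtain ⟨κ, hκ⟩ := qh_of_TI Metric.isOpen_ball hg hT
  have ha' : 0 < ‖a‖ := norm_pos_iff.2 ha
  have hm : ∀ w ∈ Metric.ball (z / a) (r / ‖a‖), a * w ∈ Metric.ball z r := by
    intro w hw
    rw [Metric.mem_ball, dist_eq_norm] at hw ⊢
    have e : a * w - z = a * (w - z / a) := by field_simp
    rw [e, norm_mul]
    rw [lt_div_iff₀ ha'] at hw
    linarith
  have hc : ContinuousOn (fun w => g (a * w)) (Metric.ball (z / a) (r / ‖a‖)) :=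
    hg.comp (by fun_prop) hm
  refine ti_of_qh hc (κ := κ * (starRingEnd ℂ) a) ?_
  have h1 : DifferentiableOn ℂ (fun w => g (a * w) - κ * (starRingEnd ℂ) (a * w))
      (Metric.ball (z / a) (r / ‖a‖)) := by
    have := hκ.comp (f := fun w => a * w) (by fun_prop) hm
    exact this
  refine h1.congr fun w _ => ?_
  rw [map_mul]
  ring

/-- **Change of the frame**, without hypothesis -/
theorem locTI_tile {R : ℕ → ℝ} {U : Ultrafilter ℕ} {z : ℂ} {r : ℝ} (hR : Tendsto R atTop atTop)
    (hU : (U : Filter ℕ) ≤ atTop) (hr : 0 < r) {G' : ℕ → ℤ × ℤ → ℂ}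
    (h : LocTI R U G' ((1 - Complex.I) * z) (2 * r)) :
    LocTI R U (fun j v => G' j (Pool.Agent.H33.Q1.tv v)) z r := locTI_tv tiRot hR hU hr h

end Pool.Agent.H26.W
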