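import Mathlib
import Pool.Agent.H26.W.Rot

set_option autoImplicit false
open Set Filter Topology

/-! # The property `LocTI` passes to close functions (W-G) -/

namespace Pool.Agent.H26.W

open Pool.Agent.H33.Q1 Pool.Agent.Q1.M4
open Pool.Agent.Q1.M6f.Glue (TI)
open Pool.Agent.H66.W

variable {R : ℕ → ℝ} {U : Ultrafilter ℕ} {z : ℂ} {r : ℝ}

/-- **`LocTI` passes to functions which are close for every error.** -/
theorem locTI_close (hR : Tendsto R atTop atTop) (hU : (U : Filter ℕ) ≤ atTop) (hr : 0 < r)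
    {G : ℕ → ℤ × ℤ → ℂ}
    (hold : ∃ C > 0, ∀ᶠ j in (U : Filter ℕ), ∀ v w : ℤ × ℤ, ‖lat v / (R j : ℂ) - z‖ < r →
      ‖lat w / (R j : ℂ) - z‖ < r → ‖G j v - G j w‖ ≤ C * (‖lat v - lat w‖ / R j) ^ (2 / 3 : ℝ))
    (hcl : ∀ ε > 0, ∃ G' : ℕ → ℤ × ℤ → ℂ, LocTI R U G' z r ∧ ∀ᶠ j in (U : Filter ℕ), ∀ v w : ℤ × ℤ,
      ‖lat v / (R j : ℂ) - z‖ < r → ‖lat w / (R j : ℂ) - z‖ < r →
      ‖(G j v - G j w) - (G' j v - G' j w)‖ ≤ ε) : LocTI R U G z r := by
  refine ⟨hold, fun g hg => ?_⟩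
  have hcg : ContinuousOn g (Metric.ball z r) := by
    obtain ⟨C, hC, hh⟩ := hold
    exact continuousOn_of_hold (C := C) one_pos fun w hw w' hw' _ => hg.hold hR hU hh hw hw'
  refine TI_of_approx hcg fun ε hε => ?_
  obtain ⟨G', hG', hc⟩ := hcl ε hε
  obtain ⟨g', hg'⟩ := exists_gLim hR U hU hr hG'.hold
  refine ⟨g', ?_, hG'.ti g' hg', fun a ha b hb => ?_⟩
  · obtain ⟨C, hC, hh⟩ := hG'.hold
    exact continuousOn_of_hold (C := C) one_pos fun w hw w' hw' _ => hg'.hold hR hU hh hw hw'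
  · have ta := (fl_tendsto hR a).mono_left hU
    have tb := (fl_tendsto hR b).mono_left hU
    have a1 := hg a ha _ ta
    have a2 := hg b hb _ tb
    have b1 := hg' a ha _ ta
    have b2 := hg' b hb _ tb
    have hl := ((a1.sub a2).sub (b1.sub b2)).norm
    refine le_of_tendsto hl ?_
    filter_upwards [hc, near_of_tendsto ta ha, near_of_tendsto tb hb] with j h1 h2 h3
    have e : G j (fl R a j) - G j (fl R z j) - (G j (fl R b j) - G j (fl R z j)) -
        (G' j (fl R a j) - G' j (fl R z j) - (G' j (fl R b j) - G' j (fl R z j))) =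
        (G j (fl R a j) - G j (fl R b j)) - (G' j (fl R a j) - G' j (fl R b j)) := by
      ring
    rw [e]
    exact h1 _ _ h2 h3

end Pool.Agent.H26.W
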