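import Mathlib
import Pool.Agent.Q1.M6c.APMain
import Pool.Agent.Q1.M4.Limit3

set_option autoImplicit false
open Finset

/-! # Hoelder bound of the displacement in a free box (W-G) -/

namespace Pool.Agent.H26.W

open Pool.Agent.Q1 Pool.Agent.Q1.M6c
open Pool.Agent.Q1.M4 (lat)

/-- the a priori bound of the maximal oscillation -/
theorem mm_pow : ∃ C : ℝ, 0 < C ∧ ∀ N : ℕ, mm N ≤ C * (N : ℝ) ^ (2 / 3 : ℝ) := by
  obtain ⟨C, hC, hb⟩ := ap_planeK
  refine ⟨C, hC, fun N => mm_le (by positivity) fun X p u v hX hp hu hv => ?_⟩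
  obtain ⟨Hv, Hf, hP⟩ := X.exists_prim hp
  rw [Env.D_prim hP (inQ_inB hu) (inQ_inB hv)]
  exact hb X hX p.1 p.2 N hp Hv Hf hP v u hv.1 hv.2 hu.1 hu.2

/-- sup norm and the norm of the difference of the lattice points -/
lemma le_lat (u v : ℤ × ℤ) (n : ℕ) (h : (n : ℤ) ≤ |v.1 - u.1| ∨ (n : ℤ) ≤ |v.2 - u.2|) :
    (n : ℝ) ≤ ‖lat v - lat u‖ := by
  rcases h with h | h
  · have h1 : (n : ℝ) ≤ |((v.1 : ℝ) - u.1)| := by
      have : ((n : ℤ) : ℝ) ≤ ((|v.1 - u.1| : ℤ) : ℝ) := by exact_mod_cast h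
      push_cast at this
      exact this
    refine h1.trans ?_
    have h2 := Complex.abs_re_le_norm (lat v - lat u)
    have h3 : (lat v - lat u).re = (v.1 : ℝ) - u.1 := by simp [lat]
    rw [h3] at h2
    exact h2
  · have h1 : (n : ℝ) ≤ |((v.2 : ℝ) - u.2)| := by
      have : ((n : ℤ) : ℝ) ≤ ((|v.2 - u.2| : ℤ) : ℝ) := by exact_mod_cast h
      push_cast at this
      exact this
    refine h1.trans ?_
    have h2 := Complex.abs_im_le_norm (lat v - lat u)
    have h3 : (lat v - lat u).im = (v.2 : ℝ) - u.2 := by simp [lat]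
    rw [h3] at h2
    exact h2

/-- **Hoelder bound of the displacement.** -/
theorem D_hold : ∃ C : ℝ, 0 < C ∧ ∀ X : Env, PlaneK X → ∀ (p : ℤ × ℤ) (N : ℕ), Free X.E p N →
    ∀ u v : ℤ × ℤ, 9 * |u.1 - p.1| ≤ N → 9 * |u.2 - p.2| ≤ N → 9 * |v.1 - p.1| ≤ N →
    9 * |v.2 - p.2| ≤ N → ‖X.D u v‖ ≤ C * ‖lat v - lat u‖ ^ (2 / 3 : ℝ) := by
  obtain ⟨C, hC, hb⟩ := mm_pow
  refine ⟨C * 4 ^ (2 / 3 : ℝ), by positivity, fun X hX p N hF u v h1 h2 h3 h4 => ?_⟩
  set n : ℕ := (max |v.1 - u.1| |v.2 - u.2|).toNat with hn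
  have hn0 : (n : ℤ) = max |v.1 - u.1| |v.2 - u.2| := by
    rw [hn]; exact Int.toNat_of_nonneg (le_max_of_le_left (abs_nonneg _))
  have a1 : |v.1 - u.1| ≤ n := by rw [hn0]; exact le_max_left _ _
  have a2 : |v.2 - u.2| ≤ n := by rw [hn0]; exact le_max_right _ _
  have a3 : (n : ℤ) ≤ |v.1 - u.1| ∨ (n : ℤ) ≤ |v.2 - u.2| := by
    rw [hn0]
    rcases max_choice |v.1 - u.1| |v.2 - u.2| with h | h
    · exact Or.inl h.le
    · exact Or.inr h.le
  have hF2 : Free X.E u ((4 * n : ℕ) : ℤ) := by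
    refine hF.mono ?_ ?_
    all_goals
      push_cast
      rcases abs_cases (u.1 - p.1) with g1 | g1 <;> rcases abs_cases (v.1 - p.1) with g2 | g2 <;>
      rcases abs_cases (u.2 - p.2) with g3 | g3 <;> rcases abs_cases (v.2 - p.2) with g4 | g4 <;>
      rcases a3 with a3 | a3 <;>
      rcases abs_cases (v.1 - u.1) with g5 | g5 <;> rcases abs_cases (v.2 - u.2) with g6 | g6 <;>
      omega
  have hu : InQ u (4 * n) u := by
    constructor <;> unfold Qt <;> simp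
  have hv : InQ u (4 * n) v := by
    constructor <;> unfold Qt <;> push_cast <;> omega
  refine (le_mm hX hF2 hu hv).trans ((hb (4 * n)).trans ?_)
  push_cast
  rw [Real.mul_rpow (by norm_num) (Nat.cast_nonneg _), mul_assoc]
  refine mul_le_mul_of_nonneg_left (mul_le_mul_of_nonneg_left ?_ (by positivity)) hC.le
  exact Real.rpow_le_rpow (Nat.cast_nonneg _) (le_lat u v n a3) (by norm_num)

end Pool.Agent.H26.W
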