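import Mathlib
import Pool.Agent.H65.G.RingTop
import Pool.Agent.H65.G.RoomT
import Pool.Agent.H66.W.Top
import Pool.Agent.H26.W.DHold

set_option autoImplicit false
open Finset Filter Topology

/-!
# The room of the ring: statement of the translation invariance, geometry (W-G)

`YR D X h u s` : the environment `X` with the plates of the ring round `u` frozen to the colours `sc s`.
`RoomTI` : translation invariance of the limits in the middle of the room, for all environments.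
-/

namespace Pool.Agent.H26.W

open Pool.Agent.H75.Perc hiding WL CT hh PB
open Pool.Agent.H75.TwoArm hiding BX
open Pool.Agent.Q1.M4 (Cell lat)
open Pool.Agent.Q1 Pool.Agent.Q1.M6c
open Pool.Agent.H33.Q1
open Pool.Agent.H58.W Pool.Agent.H50.W Pool.Agent.H41.W Pool.Agent.H6.W Pool.Agent.H98.W
open Pool.Agent.H65.G
open Pool.Agent.H66.W (LocTI)

/-- colours of the plates -/
def sc (s : Finset ((ℤ × ℤ) ⊕ (ℕ × ℤ))) (q : ℕ × ℤ) : Bool := decide (Sum.inr q ∈ s)

/-- the environment with frozen plates -/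
noncomputable def YR (D : RG) (X : Env) (h : ℕ) (u : ℤ × ℤ) (s : Finset ((ℤ × ℤ) ⊕ (ℕ × ℤ))) : Env :=
  X.freeze (X.E \ D.RL h u) (up (D.RL h u) (D.bR h u) s)

/-- **Translation invariance in the room of the ring**, uniformly in the environment. -/
def RoomTI : Prop := ∀ τ : ℕ, 0 < τ → ∃ f : ℕ → ℕ, ∀ D : RG, D.τ = τ → f (D.N2 * D.m) ≤ D.M →
  ∀ (s : Finset ((ℤ × ℤ) ⊕ (ℕ × ℤ))) (U : Ultrafilter ℕ) (R : ℕ → ℝ) (h : ℕ → ℕ) (u : ℕ → ℤ × ℤ)
    (X : ℕ → Env) (z : ℂ) (ρ : ℝ), (U : Filter ℕ) ≤ atTop → Tendsto R atTop atTop →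
    Tendsto h atTop atTop → 0 < ρ → Tendsto (fun j => ((D.N * h j : ℕ) : ℝ) / R j) U (𝓝 ρ) →
    Tendsto (fun j => lat (u j) / (R j : ℂ)) U (𝓝 z) →
    (∀ᶠ j in (U : Filter ℕ), PlaneK (X j) ∧ Free (X j).E (u j) (4 * D.N * h j + 1)) →
    LocTI R U (fun j v => (((R j) ^ (-(2 / 3) : ℝ) : ℝ) : ℂ) * (YR D (X j) (h j) (u j) s).D (u j) v) z
      (ρ / 32)

variable {D : RG} {X : Env} {h : ℕ} {u : ℤ × ℤ} {s : Finset ((ℤ × ℤ) ⊕ (ℕ × ℤ))}

lemma YR_E : (YR D X h u s).E = X.E \ D.RL h u := by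
  unfold YR
  rw [Env.freeze_E]
  exact inter_eq_right.2 sdiff_subset

lemma planeK_YR (hX : PlaneK X) : PlaneK (YR D X h u s) := planeK_freeze hX _ _

/-- the middle cells are in no plate -/
lemma rg_mid {c : Cell} (hc : Sq ((D.N : ℤ) - D.M) c) : D.rg c = none := by
  rw [RG.rg_none]
  intro k hk hA
  have h1 : Sq ((D.N : ℤ) - D.M) (rc'^[k] c) := by
    have := sq_iter (ρ := (D.N : ℤ) - D.M) k (c := rc'^[k] c)
    rw [← this, RG.rc'_iter]
    exact hc
  obtain ⟨⟨a1, a2⟩, ⟨a3, a4⟩, a5⟩ := hA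
  have h2 := D.hw_bounds a1 a2
  unfold Sq at h1
  omega

/-- the size of the middle box -/
def rm (D : RG) (h : ℕ) : ℕ := (D.N * h) / 2 - 1

lemma rm_le (D : RG) {h : ℕ} (hh : 0 < h) :
    2 * ((rm D h : ℕ) : ℤ) + 1 ≤ ((D.N : ℤ) - D.M) * (2 * h) := by
  have h1 : 2 * (D.M : ℤ) ≤ D.N := by exact_mod_cast D.N_ge
  have h2 : 0 < D.N * h := Nat.mul_pos (by have := D.N_ge; have := D.hM; omega) hh
  have h3 : (D.N : ℤ) * h ≤ ((D.N : ℤ) - D.M) * (2 * h) := by
    have : (D.N : ℤ) ≤ 2 * ((D.N : ℤ) - D.M) := by omega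
    have h0 : (0 : ℤ) ≤ h := by positivity
    nlinarith
  have h4 : 2 * (rm D h) + 1 ≤ D.N * h := by unfold rm; omega
  have h5 : 2 * ((rm D h : ℕ) : ℤ) + 1 ≤ (D.N : ℤ) * h := by exact_mod_cast h4
  exact h5.trans h3

/-- the middle labels -/
lemma mid_cell (hh : 0 < h) {e : ℤ × ℤ} (he : e ∈ Bx (u.1 - rm D h) (u.1 + rm D h) (u.2 - rm D h)
    (u.2 + rm D h)) : Sq ((D.N : ℤ) - D.M) (ct (2 * (h : ℤ)) (tt ((syT u).G' e))) := by
  refine RG.inner (p := u) (r' := rm D h) hh ?_ he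
  rw [sub_self, sub_self, abs_zero]
  have := rm_le D hh
  omega

/-- **the middle of the room is free** -/
theorem free_YR (hh : 0 < h) (hF : Free X.E u (4 * D.N * h + 1)) :
    Free (YR D X h u s).E u (rm D h) := by
  intro e he
  rw [YR_E, Finset.mem_sdiff]
  constructor
  · refine hF.mono (p' := u) (N' := rm D h) ?_ ?_ he
    all_goals
      rw [sub_self, abs_zero, zero_add]
      have h1 := rm_le D hh
      have h2 : ((D.N : ℤ) - D.M) * (2 * h) ≤ D.N * (2 * h) :=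
        mul_le_mul_of_nonneg_right (by omega) (by positivity)
      have e2 : 4 * (D.N : ℤ) * h = 2 * (D.N * (2 * h)) := by ring
      have h3 : (0 : ℤ) ≤ D.N * (2 * h) := by positivity
      omega
  · have hn : (0 : ℤ) < 2 * (h : ℤ) := by positivity
    have h1 := mid_cell (D := D) hh he
    unfold RG.RL
    rw [mem_TLu hn]
    rintro ⟨-, h2⟩
    rw [RG.mem_Rf] at h2
    exact h2 (rg_mid h1)

end Pool.Agent.H26.W
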