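import Mathlib
import Pool.Agent.H26.W.RoomD
import Pool.Agent.H59.J.JS

set_option autoImplicit false
open Finset Filter Topology

/-!
# The room of the ring: the middle of the window (W-G)

`D0 D s h` : the window of the room. `tW D h u` : its place. `mem_W0` : the random labels of the window
in the frame of the environment. `ball_OmR` : the middle ball.
-/

namespace Pool.Agent.H26.W

open Pool.Agent.H75.Perc hiding WL CT hh PB
open Pool.Agent.H75.TwoArm hiding BX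
open Pool.Agent.Q1.M4 (Cell lat Om Reg rect)
open Pool.Agent.Q1 Pool.Agent.Q1.M6c
open Pool.Agent.H33.Q1
open Pool.Agent.H58.W Pool.Agent.H50.W Pool.Agent.H41.W Pool.Agent.H6.W Pool.Agent.H98.W
open Pool.Agent.H65.G
open Pool.Agent.H66.W (LocTI)
open Pool.Agent.H59.J (OmR QR mem_QR)
open Pool.Agent.H74.Win (EN InP mem_EN natc)
open Pool.Agent.H46.Sp (Win)
open Pool.Agent.H87.FM (gx)

/-- the window of the room, cells of side `2 h` -/
def D0 (D : RG) (s : ℕ × ℤ → Bool) {h : ℕ} (hh : 0 < h) : Win :=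
  (D.cw s).win (2 * (h : ℤ)) (by omega) (by omega)

/-- the place of the window, in the tile frame -/
def tW (D : RG) (h : ℕ) (u : ℤ × ℤ) : ℤ × ℤ :=
  (u.1 + u.2, u.2 - u.1 - 2 * (h : ℤ) * (D.N - D.τ))

lemma tW_even (D : RG) (h : ℕ) (u : ℤ × ℤ) : ((tW D h u).1 + (tW D h u).2) % 2 = 0 := by
  unfold tW
  simp only
  have : u.1 + u.2 + (u.2 - u.1 - 2 * (h : ℤ) * (D.N - D.τ)) = 2 * (u.2 - h * (D.N - D.τ)) := by ring
  rw [this]
  omega

/-- shift of the labels -/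
def cS (t : ℤ × ℤ) : ℤ × ℤ := (t.1 - t.2, t.1 + t.2)

lemma sq_room {D : RG} {c : Cell} (hc : Sq ((D.N : ℤ) - D.M) c) :
    (0 ≤ c.2 + D.N - D.τ ∧ c.2 + D.N - D.τ < D.HR) ∧
      D.AL (c.2 + D.N - D.τ) ≤ c.1 ∧ c.1 < D.AR (c.2 + D.N - D.τ) := by
  have h1 := rg_mid hc
  have hM := D.MZ
  unfold Sq at hc
  rw [D.room_iff (by omega) (by omega) (by omega) (by omega)] at h1
  exact h1

/-- the tile of a label in the window -/
lemma tt_shift {D : RG} {h : ℕ} {u e : ℤ × ℤ} :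
    tt (e - cS (tW D h u)) =
      ((tt ((syT u).G' e)).1, (tt ((syT u).G' e)).2 + 2 * (h : ℤ) * (D.N - D.τ)) := by
  rw [G'T]
  unfold tt cS tW
  simp only [Prod.fst_sub, Prod.snd_sub]
  refine Prod.ext ?_ ?_
  · simp only
    congr 1
    ring
  · simp only
    rw [show e.2 - (u.1 + u.2 + (u.2 - u.1 - 2 * (h : ℤ) * (D.N - D.τ))) -
      (e.1 - (u.1 + u.2 - (u.2 - u.1 - 2 * (h : ℤ) * (D.N - D.τ)))) - 1 =
      e.2 - 2 * u.2 - (e.1 - 2 * u.1) - 1 + 2 * (2 * (h : ℤ) * (D.N - D.τ)) by ring]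
    rw [Int.add_mul_ediv_left _ _ (by norm_num)]

/-- **the middle labels are random labels of the window** -/
theorem mid_EN {D : RG} {h : ℕ} (hh : 0 < h) (s : ℕ × ℤ → Bool) {u e : ℤ × ℤ}
    (he : e ∈ Bx (u.1 - rm D h) (u.1 + rm D h) (u.2 - rm D h) (u.2 + rm D h)) :
    e - cS (tW D h u) ∈ EN (D0 D s hh) false := by
  have hn : (0 : ℤ) < 2 * (h : ℤ) := by positivity
  have hodd : (e.1 + e.2) % 2 = 1 := by
    rw [mem_Bx] at he
    exact he.2.2
  have h1 := sq_room (mid_cell (D := D) hh he)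
  set t := tt ((syT u).G' e) with ht
  have e1 : e - cS (tW D h u) = lt (t.1, t.2 + 2 * (h : ℤ) * (D.N - D.τ)) := by
    rw [← tt_shift (D := D) (h := h), lt_tt]
    have := tW_even D h u
    unfold cS
    simp only [Prod.fst_sub, Prod.snd_sub]
    omega
  rw [e1, mem_EN]
  unfold D0
  rw [D.zone_iff s (by omega) (by omega)]
  unfold ct at h1
  simp only at h1
  obtain ⟨⟨a1, a2⟩, a3, a4⟩ := h1
  have e2 : (t.2 + 2 * (h : ℤ) * (D.N - D.τ)) / (2 * (h : ℤ)) = t.2 / (2 * (h : ℤ)) + D.N - D.τ := by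
    rw [Int.add_mul_ediv_left _ _ hn.ne']
    ring
  rw [e2]
  refine ⟨⟨?_, ?_⟩, Or.inl ⟨a3, a4⟩⟩
  · have h2 : 0 ≤ (t.2 + 2 * (h : ℤ) * (D.N - D.τ)) / (2 * (h : ℤ)) := by rw [e2]; exact a1
    rw [Int.le_ediv_iff_mul_le hn, zero_mul] at h2
    exact h2
  · have h2 : (t.2 + 2 * (h : ℤ) * (D.N - D.τ)) / (2 * (h : ℤ)) < D.HR := by rw [e2]; exact a2
    rw [Int.ediv_lt_iff_lt_mul hn, mul_comm D.HR] at h2
    exact h2

/-- **the middle ball** -/
theorem ball_OmR (D : RG) :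
    Metric.ball (((D.N : ℝ) - D.τ : ℝ) * Complex.I) ((D.N : ℝ) / 2) ⊆ OmR D.HR D.AL D.AR := by
  unfold OmR Om
  refine interior_maximal (fun w hw => ?_) Metric.isOpen_ball
  rw [Metric.mem_ball, dist_eq_norm] at hw
  have hM : (2 : ℝ) * D.M ≤ D.N := by exact_mod_cast D.N_ge
  have r1 : |w.re| < (D.N : ℝ) / 2 := by
    refine lt_of_le_of_lt ?_ hw
    have := Complex.abs_re_le_norm (w - (((D.N : ℝ) - D.τ : ℝ) * Complex.I))
    simpa using this
  have r2 : |w.im - ((D.N : ℝ) - D.τ)| < (D.N : ℝ) / 2 := by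
    refine lt_of_le_of_lt ?_ hw
    have := Complex.abs_im_le_norm (w - (((D.N : ℝ) - D.τ : ℝ) * Complex.I))
    simpa using this
  rw [abs_lt] at r1 r2
  have hc : Sq ((D.N : ℤ) - D.M) (⌊w.re⌋, ⌊w.im⌋ - D.N + D.τ) := by
    unfold Sq
    simp only
    have f1 := Int.floor_le w.re
    have f2 := Int.floor_le w.im
    refine ⟨⟨?_, ?_⟩, ?_, ?_⟩
    · rw [Int.le_floor]; push_cast; linarith
    · rw [Int.floor_lt]; push_cast; linarith
    · have : (-((D.N : ℤ) - D.M) + D.N - D.τ) ≤ ⌊w.im⌋ := by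
        rw [Int.le_floor]; push_cast; linarith
      omega
    · have : ⌊w.im⌋ < (D.N : ℤ) - D.M + D.N - D.τ := by
        rw [Int.floor_lt]; push_cast; linarith
      omega
  have h1 := sq_room hc
  simp only at h1
  rw [show ⌊w.im⌋ - (D.N : ℤ) + D.τ + D.N - D.τ = ⌊w.im⌋ by ring] at h1
  refine ⟨(⌊w.re⌋, ⌊w.im⌋), mem_QR.2 ⟨h1.1.1, h1.1.2, h1.2.1, h1.2.2⟩, ⟨?_, ?_⟩, ?_, ?_⟩
  · exact Int.floor_le _
  · simp only [gx]; push_cast; exact (Int.lt_floor_add_one _).le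
  · exact Int.floor_le _
  · simp only [gx]; push_cast; exact (Int.lt_floor_add_one _).le

end Pool.Agent.H26.W
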