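import Mathlib
import Pool.Agent.H26.W.RoomG
import Pool.Agent.H26.W.Close
import Pool.Agent.H59.J.Cls
import Pool.Agent.H66.W.NotchC
import Pool.Agent.H66.W.NotchW
import Pool.Agent.H59.J.JLoc

set_option autoImplicit false
open Filter Topology

/-!
# From the mixtures of windows to the room (W-G)

`room_of_mix` : if in the middle of the room the displacements of the environment with frozen plates and
random notches are those of a mixture of windows, then the displacements of the environment with frozen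
plates have the property `LocTI`.
-/

namespace Pool.Agent.H26.W

open Pool.Agent.Q1.M4 (Cell lat)
open Pool.Agent.Q1 (Env)
open Pool.Agent.H75.Perc (inB)
open Pool.Agent.Q1.M6c (PlaneK Free)
open Pool.Agent.H33.Q1 (tv)
open Pool.Agent.H65.G (RG)
open Pool.Agent.H66.W (LocTI tR ZR YR_ZR_pow)
open Pool.Agent.H59.J (OmR Mx Pos MixG ClR jcl_ring locTI_mix)

variable {D : RG} {s : Finset ((ℤ × ℤ) ⊕ (ℕ × ℤ))} {U : Ultrafilter ℕ} {R : ℕ → ℝ} {h : ℕ → ℕ}
  {u : ℕ → ℤ × ℤ} {X : ℕ → Env} {z : ℂ} {ρ : ℝ}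

lemma N_pos (D : RG) : (0 : ℝ) < D.N := by
  have h1 := D.N_ge
  have h2 := D.hM
  have : 0 < D.N := by omega
  exact_mod_cast this

/-- the points of the ball are in the middle of the room -/
lemma near_mid (hR : Tendsto R atTop atTop) (hU : (U : Filter ℕ) ≤ atTop) (hρ : 0 < ρ)
    (hsc : Tendsto (fun j => ((D.N * h j : ℕ) : ℝ) / R j) U (𝓝 ρ))
    (hz : Tendsto (fun j => lat (u j) / (R j : ℂ)) U (𝓝 z)) :
    ∀ᶠ j in (U : Filter ℕ), ∀ v : ℤ × ℤ, ‖lat v / (R j : ℂ) - z‖ < ρ / 32 →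
      20 * |v.1 - (u j).1| ≤ (D.N : ℤ) * h j ∧ 20 * |v.2 - (u j).2| ≤ (D.N : ℤ) * h j := by
  have hRU : Tendsto R (U : Filter ℕ) atTop := hR.mono_left hU
  have h1 : ∀ᶠ j in (U : Filter ℕ), ρ * (9 / 10) < ((D.N * h j : ℕ) : ℝ) / R j :=
    hsc.eventually_const_lt (by linarith)
  have h2 : ∀ᶠ j in (U : Filter ℕ), ‖lat (u j) / (R j : ℂ) - z‖ < ρ / 100 := by
    have := (hz.sub_const z).norm
    rw [sub_self, norm_zero] at this
    exact this.eventually_lt_const (by linarith)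
  filter_upwards [h1, h2, hRU.eventually_gt_atTop 0] with j a1 a2 a3 v hv
  rw [lt_div_iff₀ a3] at a1
  have b1 : ‖lat v - lat (u j)‖ < (ρ / 32 + ρ / 100) * R j := by
    have e : lat v - lat (u j) = (R j : ℂ) * ((lat v / (R j : ℂ) - z) - (lat (u j) / (R j : ℂ) - z)) := by
      have : (R j : ℂ) ≠ 0 := by exact_mod_cast a3.ne'
      field_simp
      ring
    rw [e, norm_mul, Complex.norm_real, Real.norm_eq_abs, abs_of_pos a3, mul_comm]
    refine mul_lt_mul_of_pos_right ?_ a3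
    exact (norm_sub_le _ _).trans_lt (by linarith)
  have c1 : (|v.1 - (u j).1| : ℝ) ≤ ‖lat v - lat (u j)‖ := by
    have := Complex.abs_re_le_norm (lat v - lat (u j))
    simpa [lat] using this
  have c2 : (|v.2 - (u j).2| : ℝ) ≤ ‖lat v - lat (u j)‖ := by
    have := Complex.abs_im_le_norm (lat v - lat (u j))
    simpa [lat] using this
  push_cast at a1
  have d : 20 * ((ρ / 32 + ρ / 100) * R j) ≤ ρ * (9 / 10) * R j := by
    have := mul_pos hρ a3
    nlinarith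
  constructor
  · have : ((20 * |v.1 - (u j).1| : ℤ) : ℝ) ≤ (((D.N : ℤ) * h j : ℤ) : ℝ) := by
      push_cast
      linarith
    exact_mod_cast this
  · have : ((20 * |v.2 - (u j).2| : ℤ) : ℝ) ≤ (((D.N : ℤ) * h j : ℤ) : ℝ) := by
      push_cast
      linarith
    exact_mod_cast this

lemma inB_mid {M : ℕ} {r : ℕ} {p v : ℤ × ℤ} (hM : 30 ≤ M) (hr : r = M / 2 - 1)
    (h1 : 20 * |v.1 - p.1| ≤ (M : ℤ)) (h2 : 20 * |v.2 - p.2| ≤ (M : ℤ)) :
    (9 * |v.1 - p.1| ≤ (r : ℤ) ∧ 9 * |v.2 - p.2| ≤ (r : ℤ)) ∧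
      inB (p.1 - r) (p.1 + r) (p.2 - r) (p.2 + r) v := by
  have e1 := neg_abs_le (v.1 - p.1)
  have e2 := le_abs_self (v.1 - p.1)
  have e3 := neg_abs_le (v.2 - p.2)
  have e4 := le_abs_self (v.2 - p.2)
  unfold inB
  omega

/-- **The room from the mixtures.** -/
theorem room_of_mix (hU : (U : Filter ℕ) ≤ atTop) (hR : Tendsto R atTop atTop)
    (hh : Tendsto h atTop atTop) (hρ : 0 < ρ)
    (hsc : Tendsto (fun j => ((D.N * h j : ℕ) : ℝ) / R j) U (𝓝 ρ))
    (hz : Tendsto (fun j => lat (u j) / (R j : ℂ)) U (𝓝 z))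
    (hX : ∀ᶠ j in (U : Filter ℕ), PlaneK (X j) ∧ Free (X j).E (u j) (4 * D.N * h j + 1))
    {f : ℕ → ℤ × ℤ → ℂ} (hf : ∀ᶠ j in (U : Filter ℕ), Mx (ClR D) (h j) (f j) ∧ ∀ v w : ℤ × ℤ,
      20 * |v.1 - (u j).1| ≤ (D.N : ℤ) * h j → 20 * |v.2 - (u j).2| ≤ (D.N : ℤ) * h j →
      20 * |w.1 - (u j).1| ≤ (D.N : ℤ) * h j → 20 * |w.2 - (u j).2| ≤ (D.N : ℤ) * h j →
      (ZR D (X j) (h j) (u j) s).D v w =
        f j (tv w - tR D (h j) (u j)) - f j (tv v - tR D (h j) (u j))) :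
    LocTI R U (fun j v => (((R j) ^ (-(2 / 3) : ℝ) : ℝ) : ℂ) * (YR D (X j) (h j) (u j) s).D (u j) v)
      z (ρ / 32) := by
  have hN := N_pos D
  have hRU : Tendsto R (U : Filter ℕ) atTop := hR.mono_left hU
  have hhU : Tendsto h (U : Filter ℕ) atTop := hh.mono_left hU
  have hmid := near_mid hR hU hρ hsc hz
  have hbig : ∀ᶠ j in (U : Filter ℕ), 30 ≤ D.N * h j ∧ 0 < h j := by
    filter_upwards [hhU.eventually_ge_atTop 30] with j hj
    have h1 : 1 ≤ D.N := by exact_mod_cast hN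
    constructor
    · nlinarith
    · omega
  -- the displacement is additive in the middle
  have hadd : ∀ᶠ j in (U : Filter ℕ), ∀ v w : ℤ × ℤ, ‖lat v / (R j : ℂ) - z‖ < ρ / 32 →
      ‖lat w / (R j : ℂ) - z‖ < ρ / 32 →
      (YR D (X j) (h j) (u j) s).D (u j) v - (YR D (X j) (h j) (u j) s).D (u j) w =
        (YR D (X j) (h j) (u j) s).D w v := by
    filter_upwards [hmid, hX, hbig] with j a1 ⟨_, a2⟩ ⟨a3, a4⟩ v w hv hw
    have hF := free_YR (s := s) a4 a2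
    have b1 := inB_mid (M := D.N * h j) (r := rm D (h j)) (p := u j) (v := v) a3 rfl
      (by push_cast; exact (a1 v hv).1) (by push_cast; exact (a1 v hv).2)
    have b2 := inB_mid (M := D.N * h j) (r := rm D (h j)) (p := u j) (v := w) a3 rfl
      (by push_cast; exact (a1 w hw).1) (by push_cast; exact (a1 w hw).2)
    have b3 : inB ((u j).1 - rm D (h j)) ((u j).1 + rm D (h j)) ((u j).2 - rm D (h j))
        ((u j).2 + rm D (h j)) (u j) := by
      unfold inB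
      omega
    have := Env.D_add hF b3 b2.2 b1.2
    rw [← this]
    ring
  -- the Hoelder bound
  have hold : ∃ C > 0, ∀ᶠ j in (U : Filter ℕ), ∀ v w : ℤ × ℤ, ‖lat v / (R j : ℂ) - z‖ < ρ / 32 →
      ‖lat w / (R j : ℂ) - z‖ < ρ / 32 →
      ‖(((R j) ^ (-(2 / 3) : ℝ) : ℝ) : ℂ) * (YR D (X j) (h j) (u j) s).D (u j) v -
        (((R j) ^ (-(2 / 3) : ℝ) : ℝ) : ℂ) * (YR D (X j) (h j) (u j) s).D (u j) w‖ ≤
        C * (‖lat v - lat w‖ / R j) ^ (2 / 3 : ℝ) := by
    obtain ⟨C, hC, hb⟩ := D_hold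
    refine ⟨C, hC, ?_⟩
    filter_upwards [hmid, hX, hbig, hadd, hRU.eventually_gt_atTop 0] with j a1 ⟨a0, a2⟩ ⟨a3, a4⟩ a5 a6
      v w hv hw
    have hF := free_YR (s := s) a4 a2
    have b1 := inB_mid (M := D.N * h j) (r := rm D (h j)) (p := u j) (v := v) a3 rfl
      (by push_cast; exact (a1 v hv).1) (by push_cast; exact (a1 v hv).2)
    have b2 := inB_mid (M := D.N * h j) (r := rm D (h j)) (p := u j) (v := w) a3 rfl
      (by push_cast; exact (a1 w hw).1) (by push_cast; exact (a1 w hw).2)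
    rw [← mul_sub, a5 v w hv hw, norm_mul, Complex.norm_real, Real.norm_eq_abs,
      abs_of_nonneg (Real.rpow_nonneg a6.le _)]
    have key := hb _ (planeK_YR (D := D) (h := h j) (u := u j) (s := s) a0) (u j) (rm D (h j)) hF w v
      b2.1.1 b2.1.2 b1.1.1 b1.1.2
    refine (mul_le_mul_of_nonneg_left key (Real.rpow_nonneg a6.le _)).trans (le_of_eq ?_)
    rw [Real.div_rpow (norm_nonneg _) a6.le, Real.rpow_neg a6.le]
    field_simp
  -- the mixture
  set s0 : ℝ := 2 * ρ / D.N with hs0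
  have hs0p : 0 < s0 := by positivity
  set t0 : ℂ := (1 - Complex.I) * z - (((D.N : ℝ) - D.τ : ℝ) : ℂ) * Complex.I * s0 with ht0
  have hsc2 : Tendsto (fun j => ((2 * h j : ℕ) : ℝ) / R j) U (𝓝 s0) := by
    have := hsc.mul_const (2 / (D.N : ℝ))
    have e1 : ρ * (2 / (D.N : ℝ)) = s0 := by rw [hs0]; ring
    rw [e1] at this
    refine this.congr fun j => ?_
    push_cast
    field_simp
  have hP : Pos R U h (fun j => tR D (h j) (u j)) s0 t0 := by
    refine ⟨hR, hU, hh, hs0p, hsc2, ?_⟩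
    have h1 := (hz.const_mul (1 - Complex.I)).sub
      (((Complex.continuous_ofReal.tendsto s0).comp hsc2).const_mul
        ((((D.N : ℝ) - D.τ : ℝ) : ℂ) * Complex.I))
    refine h1.congr fun j => ?_
    have e2 : lat (tR D (h j) (u j)) = (1 - Complex.I) * lat (u j) -
        (((D.N : ℝ) - D.τ : ℝ) : ℂ) * Complex.I * ((2 * h j : ℕ) : ℝ) := by
      unfold lat tR
      apply Complex.ext
      · simp
      · simp
        ring
    rw [e2]
    simp only [Function.comp]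
    push_cast
    ring
  have hball : Metric.ball (((1 - Complex.I) * z - t0) / s0) (16 * (2 * (ρ / 32)) / s0) ⊆
      OmR D.HR D.AL D.AR := by
    have e1 : ((1 - Complex.I) * z - t0) / s0 = (((D.N : ℝ) - D.τ : ℝ) : ℂ) * Complex.I := by
      rw [ht0]
      have : (s0 : ℂ) ≠ 0 := by exact_mod_cast hs0p.ne'
      field_simp
      ring
    have e2 : 16 * (2 * (ρ / 32)) / s0 = (D.N : ℝ) / 2 := by
      rw [hs0]
      field_simp
      norm_num
    rw [e1, e2]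
    exact ball_OmR D
  set G' : ℕ → ℤ × ℤ → ℂ := fun j v => (((R j) ^ (-(2 / 3) : ℝ) : ℝ) : ℂ) * f j (v - tR D (h j) (u j))
    with hG'
  have hM : MixG R U h (fun j => tR D (h j) (u j)) (ClR D) ((1 - Complex.I) * z) (2 * (ρ / 32)) G' := by
    filter_upwards [hf] with j hj
    refine ⟨f j, hj.1, fun v w _ _ => ?_⟩
    simp only [hG']
    ring
  have hL := locTI_mix (jcl_ring D) hP (by linarith : 0 < 2 * (ρ / 32)) hball hM
  have hL2 := locTI_tile hR hU (by linarith : 0 < ρ / 32) hL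
  -- closeness
  refine locTI_close hR hU (by linarith) hold fun ε hε => ⟨_, hL2, ?_⟩
  have hB : (0 : ℝ) < (s0 + 1) ^ (2 / 3 : ℝ) := by positivity
  obtain ⟨h0, hh0⟩ := YR_ZR_pow D (ε / (s0 + 1) ^ (2 / 3 : ℝ)) (by positivity)
  have hsc3 : ∀ᶠ j in (U : Filter ℕ), ((2 * h j : ℕ) : ℝ) / R j < s0 + 1 :=
    hsc2.eventually_lt_const (by linarith)
  filter_upwards [hmid, hX, hbig, hadd, hf, hRU.eventually_gt_atTop 0, hhU.eventually_ge_atTop h0, hsc3]
    with j a1 ⟨a0, a2⟩ ⟨a3, a4⟩ a5 ⟨_, a7⟩ a6 a8 a9 v w hv hw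
  have b1 := a1 v hv
  have b2 := a1 w hw
  have c1 := a7 w v b2.1 b2.2 b1.1 b1.2
  have c2 := hh0 (h j) a8 s (X j) a0 (u j) a2 w v b2.1 b2.2 b1.1 b1.2
  have e1 : (((R j) ^ (-(2 / 3) : ℝ) : ℝ) : ℂ) * (YR D (X j) (h j) (u j) s).D (u j) v -
      (((R j) ^ (-(2 / 3) : ℝ) : ℝ) : ℂ) * (YR D (X j) (h j) (u j) s).D (u j) w -
      (G' j (tv v) - G' j (tv w)) = (((R j) ^ (-(2 / 3) : ℝ) : ℝ) : ℂ) *
        ((YR D (X j) (h j) (u j) s).D w v - (ZR D (X j) (h j) (u j) s).D w v) := by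
    rw [c1, ← a5 v w hv hw]
    simp only [hG']
    ring
  rw [e1, norm_mul, Complex.norm_real, Real.norm_eq_abs, abs_of_nonneg (Real.rpow_nonneg a6.le _)]
  refine (mul_le_mul_of_nonneg_left c2 (Real.rpow_nonneg a6.le _)).trans ?_
  have e2 : R j ^ (-(2 / 3) : ℝ) * (ε / (s0 + 1) ^ (2 / 3 : ℝ) * (2 * (h j : ℝ)) ^ (2 / 3 : ℝ)) =
      ε / (s0 + 1) ^ (2 / 3 : ℝ) * (2 * (h j : ℝ) / R j) ^ (2 / 3 : ℝ) := by
    rw [Real.div_rpow (by positivity) a6.le, Real.rpow_neg a6.le]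
    field_simp
  rw [e2, div_mul_eq_mul_div, div_le_iff₀ hB]
  refine mul_le_mul_of_nonneg_left ?_ hε.le
  refine Real.rpow_le_rpow (by positivity) ?_ (by norm_num)
  push_cast at a9
  exact a9.le

end Pool.Agent.H26.W
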