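import Mathlib
import Pool.Agent.H26.W.RoomM
import Pool.Agent.H66.W.TopH
import Pool.Agent.Q1.M6c.PlaneKDob

set_option autoImplicit false
open Filter Topology

/-!
# From the room of the ring to the lattice domains (W-G)

`tiDob_of_room` : the local translation invariance of the primitives of the lattice domains.
-/

namespace Pool.Agent.H26.W

open Pool.Agent.Q1.M4 (Cell lat Om LocPrim locPrim_of_global scl IsPrim PType PH PV GLim
  exists_gLim fl fl_tendsto near_of_tendsto continuousOn_of_hold)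
open Pool.Agent.Q1 (Env ph Ec Ec_half)
open Pool.Agent.Q1.Dob (dob)
open Pool.Agent.Q1.M6c (PlaneK Free mm InQ planeK_dob)
open Pool.Agent.Q1.M6f.Glue (TI)
open Pool.Agent.H75.Perc (inB syT)
open Pool.Agent.H33.Q1 (tv lt tt ct)
open Pool.Agent.H65.G (RG G'T GG'T ring_top mem_TLu)
open Pool.Agent.H66.W (LocTI TIDob CTI mem_RL TI_const)
open Pool.Agent.H58.W (EB up)
open Pool.Agent.H50.W (bk_some)
open Pool.Agent.H6.W (RS)
open Pool.Agent.H58.W (LocB)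

variable {R : ℕ → ℝ} {U : Ultrafilter ℕ} {z : ℂ} {r : ℝ}

/-- bounded factors -/
theorem locTI_smul (hR : Tendsto R atTop atTop) (hU : (U : Filter ℕ) ≤ atTop) (hr : 0 < r)
    {G : ℕ → ℤ × ℤ → ℂ} (h : LocTI R U G z r) {a : ℕ → ℂ} {A : ℝ} (hA : 0 < A)
    (ha : ∀ᶠ j in (U : Filter ℕ), ‖a j‖ ≤ A) : LocTI R U (fun j v => a j * G j v) z r := by
  have hRU : Tendsto R (U : Filter ℕ) atTop := hR.mono_left hU
  refine ⟨?_, fun g hg => ?_⟩
  · obtain ⟨C, hC, hh⟩ := h.hold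
    refine ⟨A * C, by positivity, ?_⟩
    filter_upwards [hh, ha, hRU.eventually_gt_atTop 0] with j h1 h2 h3 v w hv hw
    rw [← mul_sub, norm_mul, mul_assoc]
    exact mul_le_mul h2 (h1 v w hv hw) (norm_nonneg _) hA.le
  · obtain ⟨a0, -, ha0⟩ := (isCompact_closedBall (0 : ℂ) A).ultrafilter_le_nhds (U.map a) (by
      rw [le_principal_iff]
      show Metric.closedBall (0 : ℂ) A ∈ Filter.map a (U : Filter ℕ)
      rw [Filter.mem_map]
      filter_upwards [ha] with j hj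
      rw [Set.mem_preimage, Metric.mem_closedBall, dist_zero_right]
      exact hj)
    have hlim : Tendsto a (U : Filter ℕ) (𝓝 a0) := ha0
    obtain ⟨g0, hg0⟩ := exists_gLim hR U hU hr h.hold
    have hc0 : ContinuousOn g0 (Metric.ball z r) := by
      obtain ⟨C, hC, hh⟩ := h.hold
      exact continuousOn_of_hold (C := C) one_pos fun w hw w' hw' _ => hg0.hold hR hU hh hw hw'
    have h3 := Pool.Agent.Q1.M6f.Glue.TI.lin hc0 continuousOn_const (h.ti g0 hg0)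
      (TI_const (Metric.ball z r) (0 : ℂ)) a0 1
    refine Pool.Agent.H66.W.TI.congr h3 fun w hw => ?_
    have t := (fl_tendsto hR w).mono_left hU
    have a1 := hg w hw _ t
    have a2 := hlim.mul (hg0 w hw _ t)
    have a3 : Tendsto (fun j => a j * G j (fl R w j) - a j * G j (fl R z j)) U (𝓝 (a0 * g0 w)) := by
      refine a2.congr fun j => ?_
      ring
    rw [tendsto_nhds_unique a1 a3]
    ring

/-- the coins of the plates -/
noncomputable def IC (D : RG) : Finset ((ℤ × ℤ) ⊕ (ℕ × ℤ)) :=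
  D.Rf.image (fun c => (D.rg c).elim (Sum.inl (0, 0)) Sum.inr)

/-- **the coins of the ring do not depend on the place and the scale** -/
theorem image_bR (D : RG) {h : ℕ} (hh : 0 < h) (u : ℤ × ℤ) :
    (D.RL h u).image (D.bR h u) = IC D := by
  classical
  have hn : (0 : ℤ) < 2 * (h : ℤ) := by positivity
  ext b
  unfold IC
  rw [Finset.mem_image, Finset.mem_image]
  constructor
  · rintro ⟨e, he, rfl⟩
    obtain ⟨-, h2⟩ := (mem_RL hh).1 he
    refine ⟨_, D.mem_Rf.2 h2, ?_⟩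
    obtain ⟨q, hq⟩ := Option.ne_none_iff_exists'.1 h2
    have h3 : D.bR h u e = Sum.inr q := bk_some hq
    rw [h3, hq]
    rfl
  · rintro ⟨c, hc, rfl⟩
    have h2 := D.mem_Rf.1 hc
    obtain ⟨q, hq⟩ := Option.ne_none_iff_exists'.1 h2
    set e := (syT u).G (lt (2 * (h : ℤ) * c.1, 2 * (h : ℤ) * c.2)) with he
    have h4 : (syT u).G' e = lt (2 * (h : ℤ) * c.1, 2 * (h : ℤ) * c.2) := GG'T u _
    have h5 : ct (2 * (h : ℤ)) (tt ((syT u).G' e)) = c := by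
      rw [h4]
      unfold ct tt lt
      refine Prod.ext ?_ ?_
      · simp only
        rw [show (2 * (h : ℤ) * c.1 - 2 * (h : ℤ) * c.2 + (2 * (h : ℤ) * c.1 + 2 * (h : ℤ) * c.2 + 1) - 1) / 2 =
          2 * (h : ℤ) * c.1 by omega]
        exact Int.mul_ediv_cancel_left _ hn.ne'
      · simp only
        rw [show (2 * (h : ℤ) * c.1 + 2 * (h : ℤ) * c.2 + 1 - (2 * (h : ℤ) * c.1 - 2 * (h : ℤ) * c.2) - 1) / 2 =
          2 * (h : ℤ) * c.2 by omega]
        exact Int.mul_ediv_cancel_left _ hn.ne'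
    refine ⟨e, ?_, ?_⟩
    · unfold RG.RL
      rw [mem_TLu hn, h5]
      refine ⟨?_, hc⟩
      rw [he]
      show ((2 * (h : ℤ) * c.1 - 2 * (h : ℤ) * c.2 + 2 * u.1) +
        (2 * (h : ℤ) * c.1 + 2 * (h : ℤ) * c.2 + 1 + 2 * u.2)) % 2 = 1
      rw [show (2 * (h : ℤ) * c.1 - 2 * (h : ℤ) * c.2 + 2 * u.1) +
        (2 * (h : ℤ) * c.1 + 2 * (h : ℤ) * c.2 + 1 + 2 * u.2) =
        2 * (2 * (h : ℤ) * c.1 + u.1 + u.2) + 1 by ring]
      omega
    · have h6 : D.bR h u e = Sum.inr q := bk_some (by rw [h5]; exact hq)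
      rw [h6, hq]
      rfl

/-- the average over the coins of the plates -/
theorem EB_sum (D : RG) {h : ℕ} (hh : 0 < h) (u : ℤ × ℤ) (X : Env) (v w : ℤ × ℤ) :
    EB (D.RL h u) (D.bR h u) (fun ω => (X.freeze (X.E \ D.RL h u) ω).D v w) =
      ∑ s ∈ (IC D).powerset, (1 / 2 : ℂ) ^ (IC D).card * (YR D X h u s).D v w := by
  unfold EB
  rw [image_bR D hh u, Ec_half, Finset.mul_sum]
  rfl

lemma near_one {P : PType} {x y : ℤ → ℝ} {X Y : ℕ → ℤ → ℤ} (hx : StrictMono x) (hy : StrictMono y)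
    (hA : Pool.Agent.Q1.M5.App x y R X Y) {Hv Hf : ℕ → ℤ × ℤ → ℂ}
    (hp : ∀ᶠ j in atTop, IsPrim P (X j) (Y j) (Hv j) (Hf j)) :
    LocPrim P x y R (scl R Hv) PlaneK := by
  have key : ∀ j, ∃ E : Env, IsPrim P (X j) (Y j) (Hv j) (Hf j) →
      PH PlaneK P (X j) (Y j) E (Hv j) (Hf j) (ph (-1)) 2 := by
    intro j
    by_cases h : IsPrim P (X j) (Y j) (Hv j) (Hf j)
    · obtain ⟨E, hE, -⟩ := h.pH planeK_dob
      exact ⟨E, fun _ => hE⟩
    · exact ⟨dob P (X := fun i => i) (Y := fun i => i) strictMono_id strictMono_id,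
        fun h' => absurd h' h⟩
  choose Ev hk using key
  have hPH := hp.mono fun j hj => hk j hj
  refine locPrim_of_global (Ev := Ev) (Hv := Hv) (Hf := Hf) (α := fun j => ((R j ^ (-(2 / 3) : ℝ) : ℝ) : ℂ))
    (κ := fun _ => 0) hx hy hA one_pos (hPH.mono fun j h => h.mem) (hPH.mono fun j h => h.sub)
    (hPH.mono fun j h => h.prim) ?_ ?_
  · filter_upwards [hA.app.R_top.eventually_gt_atTop 0] with j hj
    rw [Complex.norm_real, Real.norm_eq_abs, abs_of_nonneg (Real.rpow_nonneg hj.le _), one_mul]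
  · refine Eventually.of_forall fun j v _ => ?_
    rw [sub_zero]
    rfl

/-- **The environments near an interior point.** -/
lemma exists_env {P : PType} {x y : ℤ → ℝ} {H : ℕ → ℤ × ℤ → ℂ} (hR : Tendsto R atTop atTop)
    (hL : LocPrim P x y R H PlaneK) (hz : z ∈ Om P.Q x y) : ∃ (A ρ : ℝ), 0 < A ∧ 0 < ρ ∧
      ∀ (D : RG) (h : ℕ → ℕ), (∀ᶠ j in atTop, ((4 * D.N * h j + 1 : ℕ) : ℝ) ≤ ρ * R j) →
      ∃ X : ℕ → Env, ∃ a : ℕ → ℂ, ∀ᶠ j in atTop, (PlaneK (X j) ∧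
        Free (X j).E (fl R z j) (4 * D.N * h j + 1)) ∧ ‖a j‖ ≤ A ∧ ∀ v w : ℤ × ℤ,
        inB ((fl R z j).1 - (4 * D.N * h j + 1 : ℕ)) ((fl R z j).1 + (4 * D.N * h j + 1 : ℕ))
          ((fl R z j).2 - (4 * D.N * h j + 1 : ℕ)) ((fl R z j).2 + (4 * D.N * h j + 1 : ℕ)) v →
        inB ((fl R z j).1 - (4 * D.N * h j + 1 : ℕ)) ((fl R z j).1 + (4 * D.N * h j + 1 : ℕ))
          ((fl R z j).2 - (4 * D.N * h j + 1 : ℕ)) ((fl R z j).2 + (4 * D.N * h j + 1 : ℕ)) w →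
        H j v - H j w = a j * ((((R j) ^ (-(2 / 3) : ℝ) : ℝ) : ℂ) * (X j).D w v) := by
  obtain ⟨A, hA, hL⟩ := hL
  obtain ⟨ρ, hρ, hL⟩ := hL z hz
  refine ⟨A, ρ, hA, hρ, fun D h hh => ?_⟩
  have hnear : ∀ᶠ j in atTop, ‖lat (fl R z j) / (R j : ℂ) - z‖ < ρ :=
    near_of_tendsto (fl_tendsto hR z) (Metric.mem_ball_self hρ)
  have key : ∀ᶠ j in atTop, ∃ q : Env × ℂ, (PlaneK q.1 ∧
        Free q.1.E (fl R z j) (4 * D.N * h j + 1)) ∧ ‖q.2‖ ≤ A ∧ ∀ v w : ℤ × ℤ,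
        inB ((fl R z j).1 - (4 * D.N * h j + 1 : ℕ)) ((fl R z j).1 + (4 * D.N * h j + 1 : ℕ))
          ((fl R z j).2 - (4 * D.N * h j + 1 : ℕ)) ((fl R z j).2 + (4 * D.N * h j + 1 : ℕ)) v →
        inB ((fl R z j).1 - (4 * D.N * h j + 1 : ℕ)) ((fl R z j).1 + (4 * D.N * h j + 1 : ℕ))
          ((fl R z j).2 - (4 * D.N * h j + 1 : ℕ)) ((fl R z j).2 + (4 * D.N * h j + 1 : ℕ)) w →
        H j v - H j w = q.2 * ((((R j) ^ (-(2 / 3) : ℝ) : ℝ) : ℂ) * q.1.D w v) := by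
    filter_upwards [hL, hnear, hh, hR.eventually_gt_atTop 0] with j h1 h2 h3 h4
    obtain ⟨E, hE, hB, Hv, Hf, hP, α, hα, hH⟩ := h1 _ h2 _ h3
    have hR1 : (0 : ℝ) < R j ^ (2 / 3 : ℝ) := Real.rpow_pos_of_pos h4 _
    have e0 : R j ^ (2 / 3 : ℝ) * R j ^ (-(2 / 3) : ℝ) = 1 := by
      rw [← Real.rpow_add h4]
      norm_num
    refine ⟨(E, α * ((R j ^ (2 / 3 : ℝ) : ℝ) : ℂ)), ⟨hE, ?_⟩, ?_, ?_⟩
    · intro e he
      refine hB ?_
      push_cast
      exact he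
    · simp only
      rw [norm_mul, Complex.norm_real, Real.norm_eq_abs, abs_of_pos hR1]
      calc ‖α‖ * R j ^ (2 / 3 : ℝ) ≤ A * R j ^ (-(2 / 3) : ℝ) * R j ^ (2 / 3 : ℝ) :=
            mul_le_mul_of_nonneg_right hα hR1.le
        _ = A * (R j ^ (2 / 3 : ℝ) * R j ^ (-(2 / 3) : ℝ)) := by ring
        _ = A := by rw [e0, mul_one]
    · intro v w hv hw
      simp only
      rw [Env.D_prim hP hw hv, hH v hv.1.1 hv.1.2 hv.2.1 hv.2.2, hH w hw.1.1 hw.1.2 hw.2.1 hw.2.2]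
      have e1 : ((R j ^ (2 / 3 : ℝ) : ℝ) : ℂ) * ((R j ^ (-(2 / 3) : ℝ) : ℝ) : ℂ) = 1 := by
        rw [← Complex.ofReal_mul, e0, Complex.ofReal_one]
      linear_combination (-(α * (Hv v - Hv w))) * e1
  have : Nonempty (Env × ℂ) := by
    obtain ⟨j, hj⟩ := key.exists
    exact ⟨hj.choose⟩
  obtain ⟨q, hq⟩ := key.choice
  exact ⟨fun j => (q j).1, fun j => (q j).2, hq⟩

/-- **The output of the ring: local translation invariance for the lattice domains.** -/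
theorem tiDob_of_room (hT : RoomTI) (hL : LocB) {C0 : ℕ} {C c : ℝ} (hRS : RS C0 C c) (hc : 0 < c) :
    TIDob := by
  intro P x y hx hy R X' Y' hA Hv Hf hp U hU z hz
  have hR : Tendsto R atTop atTop := hA.app.R_top
  have hRU : Tendsto R (U : Filter ℕ) atTop := hR.mono_left hU
  obtain ⟨A, ρ0, hA0, hρ0, henv⟩ := exists_env hR (near_one hx hy hA hp) hz
  set ρ : ℝ := ρ0 / 8 with hρd
  have hρ : 0 < ρ := by positivity
  refine ⟨ρ / 32, by positivity, fun ε hε => ?_⟩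
  obtain ⟨f, hf⟩ := hT 1 one_pos
  obtain ⟨C', hC', hmm⟩ := mm_pow
  have hB : (0 : ℝ) < 4 * A * C' * (2 * ρ) ^ (2 / 3 : ℝ) := by positivity
  obtain ⟨D, hDτ, hDf, h0, hring⟩ := ring_top hL hRS hc (ε / (4 * A * C' * (2 * ρ) ^ (2 / 3 : ℝ)))
    (by positivity) 1 one_pos f
  have hN := N_pos D
  set h : ℕ → ℕ := fun j => ⌊ρ * R j / D.N⌋₊ with hh
  -- the scale
  have hsc0 : Tendsto (fun j => ((h j : ℕ) : ℝ) / R j) atTop (𝓝 (ρ / D.N)) := by
    have h1 := (tendsto_nat_floor_mul_div_atTop (R := ℝ) (a := ρ / D.N) (by positivity)).comp hR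
    refine h1.congr fun j => ?_
    simp only [Function.comp, hh]
    rw [div_mul_eq_mul_div]
  have hsc : Tendsto (fun j => ((D.N * h j : ℕ) : ℝ) / R j) atTop (𝓝 ρ) := by
    have h1 := hsc0.const_mul (D.N : ℝ)
    have e1 : (D.N : ℝ) * (ρ / D.N) = ρ := by field_simp
    rw [e1] at h1
    refine h1.congr fun j => ?_
    push_cast
    ring
  have hht : Tendsto h atTop atTop := by
    refine tendsto_nat_floor_atTop.comp ?_
    have h1 : Tendsto (fun j => (ρ / D.N) * R j) atTop atTop := hR.const_mul_atTop (by positivity)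
    refine h1.congr fun j => ?_
    ring
  have hbox : ∀ᶠ j in atTop, ((4 * D.N * h j + 1 : ℕ) : ℝ) ≤ ρ0 * R j := by
    have h1 : ∀ᶠ j in atTop, ((D.N * h j : ℕ) : ℝ) / R j < ρ * (3 / 2) :=
      hsc.eventually_lt_const (by linarith)
    filter_upwards [h1, hR.eventually_gt_atTop 0, hR.eventually_gt_atTop (4 / ρ0)] with j b1 b2 b3
    rw [div_lt_iff₀ b2] at b1
    rw [div_lt_iff₀ hρ0] at b3
    push_cast at b1 ⊢
    rw [hρd] at b1
    nlinarith
  obtain ⟨X, a, hX⟩ := henv D h hbox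
  have hz' : Tendsto (fun j => lat (fl R z j) / (R j : ℂ)) U (𝓝 z) := (fl_tendsto hR z).mono_left hU
  have hXU : ∀ᶠ j in (U : Filter ℕ), PlaneK (X j) ∧ Free (X j).E (fl R z j) (4 * D.N * h j + 1) :=
    (hX.mono fun j hj => hj.1).filter_mono hU
  -- the mixture over the colours
  have hL1 : ∀ s : Finset ((ℤ × ℤ) ⊕ (ℕ × ℤ)), LocTI R U (fun j v =>
      (((R j) ^ (-(2 / 3) : ℝ) : ℝ) : ℂ) * (YR D (X j) (h j) (fl R z j) s).D (fl R z j) v) z (ρ / 32) :=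
    fun s => hf D hDτ hDf s U R h (fun j => fl R z j) X z ρ hU hR hht hρ (hsc.mono_left hU) hz' hXU
  have hL2 := LocTI.mix (IC D).powerset (fun _ => (1 / 2 : ℂ) ^ (IC D).card)
    (fun s j v => (((R j) ^ (-(2 / 3) : ℝ) : ℝ) : ℂ) * (YR D (X j) (h j) (fl R z j) s).D (fl R z j) v)
    hU hR (by positivity : 0 < ρ / 32) (fun s _ => hL1 s)
  have hL3 := locTI_smul hR hU (by positivity : 0 < ρ / 32) hL2 hA0
    ((hX.mono fun j hj => hj.2.1).filter_mono hU)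
  refine ⟨_, hL3, ?_⟩
  -- the error
  have hhU : Tendsto h (U : Filter ℕ) atTop := hht.mono_left hU
  have hsc2 : ∀ᶠ j in (U : Filter ℕ), ((D.N * h j : ℕ) : ℝ) / R j < 2 * ρ :=
    (hsc.mono_left hU).eventually_lt_const (by linarith)
  filter_upwards [near_mid hR hU hρ (hsc.mono_left hU) hz', hX.filter_mono hU, hsc2,
    hhU.eventually_ge_atTop h0, hhU.eventually_ge_atTop 30, hRU.eventually_gt_atTop 0] with
    j b1 b2 b3 b4 b5 b6 v w hv hw
  obtain ⟨⟨c1, c2⟩, c3, c4⟩ := b2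
  have hN1 : 1 ≤ D.N := by exact_mod_cast hN
  have h30 : 30 ≤ D.N * h j := by nlinarith
  have hh0 : 0 < h j := by omega
  have d1 := inB_mid (M := D.N * h j) (r := rm D (h j)) (p := fl R z j) (v := v) h30 rfl
    (by push_cast; exact (b1 v hv).1) (by push_cast; exact (b1 v hv).2)
  have d2 := inB_mid (M := D.N * h j) (r := rm D (h j)) (p := fl R z j) (v := w) h30 rfl
    (by push_cast; exact (b1 w hw).1) (by push_cast; exact (b1 w hw).2)
  have hrm : rm D (h j) ≤ 4 * D.N * h j + 1 := by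
    unfold rm
    have : 4 * D.N * h j = 4 * (D.N * h j) := by ring
    omega
  have hrm' : ((rm D (h j) : ℕ) : ℤ) ≤ ((4 * D.N * h j + 1 : ℕ) : ℤ) := by exact_mod_cast hrm
  have hbig : ∀ v' : ℤ × ℤ, inB ((fl R z j).1 - rm D (h j)) ((fl R z j).1 + rm D (h j))
      ((fl R z j).2 - rm D (h j)) ((fl R z j).2 + rm D (h j)) v' →
      inB ((fl R z j).1 - (4 * D.N * h j + 1 : ℕ)) ((fl R z j).1 + (4 * D.N * h j + 1 : ℕ))
        ((fl R z j).2 - (4 * D.N * h j + 1 : ℕ)) ((fl R z j).2 + (4 * D.N * h j + 1 : ℕ)) v' := by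
    intro v' hv'
    unfold inB at hv' ⊢
    omega
  rw [c4 v w (hbig v d1.2) (hbig w d2.2)]
  -- additivity in the frozen environments
  have hadd : ∀ s : Finset ((ℤ × ℤ) ⊕ (ℕ × ℤ)), (YR D (X j) (h j) (fl R z j) s).D (fl R z j) v -
      (YR D (X j) (h j) (fl R z j) s).D (fl R z j) w = (YR D (X j) (h j) (fl R z j) s).D w v := by
    intro s
    have hF := free_YR (s := s) hh0 c2
    have b3 : inB ((fl R z j).1 - rm D (h j)) ((fl R z j).1 + rm D (h j)) ((fl R z j).2 - rm D (h j))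
        ((fl R z j).2 + rm D (h j)) (fl R z j) := by
      unfold inB
      omega
    have := Env.D_add hF b3 d2.2 d1.2
    rw [← this]
    ring
  have hsum : (∑ s ∈ (IC D).powerset, (1 / 2 : ℂ) ^ (IC D).card *
      ((((R j) ^ (-(2 / 3) : ℝ) : ℝ) : ℂ) * (YR D (X j) (h j) (fl R z j) s).D (fl R z j) v)) -
      (∑ s ∈ (IC D).powerset, (1 / 2 : ℂ) ^ (IC D).card *
      ((((R j) ^ (-(2 / 3) : ℝ) : ℝ) : ℂ) * (YR D (X j) (h j) (fl R z j) s).D (fl R z j) w)) =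
      (((R j) ^ (-(2 / 3) : ℝ) : ℝ) : ℂ) * EB (D.RL (h j) (fl R z j)) (D.bR (h j) (fl R z j))
        (fun ω => ((X j).freeze ((X j).E \ D.RL (h j) (fl R z j)) ω).D w v) := by
    rw [EB_sum D hh0, ← Finset.sum_sub_distrib, Finset.mul_sum]
    refine Finset.sum_congr rfl fun s _ => ?_
    rw [← hadd s]
    ring
  have e1 : a j * ((((R j) ^ (-(2 / 3) : ℝ) : ℝ) : ℂ) * (X j).D w v) -
      (a j * (∑ s ∈ (IC D).powerset, (1 / 2 : ℂ) ^ (IC D).card *
        ((((R j) ^ (-(2 / 3) : ℝ) : ℝ) : ℂ) * (YR D (X j) (h j) (fl R z j) s).D (fl R z j) v)) -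
      a j * (∑ s ∈ (IC D).powerset, (1 / 2 : ℂ) ^ (IC D).card *
        ((((R j) ^ (-(2 / 3) : ℝ) : ℝ) : ℂ) * (YR D (X j) (h j) (fl R z j) s).D (fl R z j) w))) =
      a j * ((((R j) ^ (-(2 / 3) : ℝ) : ℝ) : ℂ) * ((X j).D w v -
        EB (D.RL (h j) (fl R z j)) (D.bR (h j) (fl R z j))
          (fun ω => ((X j).freeze ((X j).E \ D.RL (h j) (fl R z j)) ω).D w v))) := by
    rw [← mul_sub (a j) (∑ s ∈ (IC D).powerset, _), hsum]
    ring
  rw [e1, norm_mul, norm_mul, Complex.norm_real, Real.norm_eq_abs,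
    abs_of_nonneg (Real.rpow_nonneg b6.le _)]
  have key := hring (h j) b4 (X j) c1 (fl R z j) (fl R z j) (rm D (h j)) c2 (by
    rw [sub_self, sub_self, abs_zero]
    have h7 : 2 * rm D (h j) + 1 ≤ D.N * h j := by unfold rm; omega
    have h8 : 2 * ((rm D (h j) : ℕ) : ℤ) + 1 ≤ (D.N : ℤ) * h j := by exact_mod_cast h7
    omega) w v (by
    constructor <;> unfold Pool.Agent.Q1.Qt <;> omega) (by
    constructor <;> unfold Pool.Agent.Q1.Qt <;> omega)
  have hm2 : mm (rm D (h j)) ≤ C' * ((2 * ρ) ^ (2 / 3 : ℝ) * R j ^ (2 / 3 : ℝ)) := by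
    refine (hmm _).trans (mul_le_mul_of_nonneg_left ?_ hC'.le)
    rw [← Real.mul_rpow (by positivity) b6.le]
    refine Real.rpow_le_rpow (Nat.cast_nonneg _) ?_ (by norm_num)
    rw [div_lt_iff₀ b6] at b3
    have h7 : rm D (h j) ≤ D.N * h j := by unfold rm; omega
    have h8 : ((rm D (h j) : ℕ) : ℝ) ≤ ((D.N * h j : ℕ) : ℝ) := by exact_mod_cast h7
    linarith
  have e0 : R j ^ (-(2 / 3) : ℝ) * R j ^ (2 / 3 : ℝ) = 1 := by
    rw [← Real.rpow_add b6]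
    norm_num
  have hRp : (0 : ℝ) ≤ R j ^ (-(2 / 3) : ℝ) := Real.rpow_nonneg b6.le _
  calc ‖a j‖ * (R j ^ (-(2 / 3) : ℝ) * ‖(X j).D w v - EB (D.RL (h j) (fl R z j))
        (D.bR (h j) (fl R z j)) (fun ω => ((X j).freeze ((X j).E \ D.RL (h j) (fl R z j)) ω).D w v)‖)
      ≤ A * (R j ^ (-(2 / 3) : ℝ) * (4 * (C' * ((2 * ρ) ^ (2 / 3 : ℝ) * R j ^ (2 / 3 : ℝ))) *
          (ε / (4 * A * C' * (2 * ρ) ^ (2 / 3 : ℝ))))) := by
        refine mul_le_mul c3 (mul_le_mul_of_nonneg_left (key.trans ?_) hRp) (by positivity) hA0.le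
        exact mul_le_mul_of_nonneg_right (by linarith) (by positivity)
    _ = (R j ^ (-(2 / 3) : ℝ) * R j ^ (2 / 3 : ℝ)) * ε := by
        field_simp
    _ = ε := by rw [e0, one_mul]

end Pool.Agent.H26.W
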