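import Mathlib
import Pool.Agent.H66.W.NotchW
import Pool.Agent.H40.W.R3.Fin
import Pool.Agent.H68.G.PlOut
import Pool.Agent.H33.Sp.Shift
import Pool.Agent.H98.G.PotD
import Pool.Agent.H59.J.Cls

set_option autoImplicit false
open Finset

/-!
# The room in the environment with frozen plates (W-G)

`vR D h u` : the translation of the window. `r3_ZR` : if also the labels outside of the window are frozen,
the increments in the window vanish or are those of a window with an outside with the property `Z`.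
-/

namespace Pool.Agent.H26.W

open Pool.Agent.H75.Perc hiding WL CT hh ph cc EE Cn cl
open Pool.Agent.H75.TwoArm hiding BX
open Pool.Agent.H33.Q1 hiding rc
open Pool.Agent.Q1 (Env ph)
open Pool.Agent.Q1.M6c (PlaneEnv PlaneK Free)
open Pool.Agent.Q1.Env (inc_tr)
open Pool.Agent.H65.G (RG G'T)
open Pool.Agent.H66.W (csR tR rt Zn zn_iff NT ZR mem_NT mem_RL ZR_E ct_rt mem_state csR_tR lt_add_tR rt_lt
  odd_lt_csR win_sub_ZR)
open Pool.Agent.H33.Sp (shl mem_shl mem_shl' shl_neg shc shX planeEnv_sh inc_sh)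
open Pool.Agent.H74.R45 (RC)
open Pool.Agent.H74.Win (OutB InP EN mem_EN WN XN)
open Pool.Agent.H46.Sp (Win)
open Pool.Agent.H13.Sp (nP colp)
open Pool.Agent.H40.W.R3 (MatA Plates inc_actual)
open Pool.Agent.H59.J (ArcsAt)
open Pool.Agent.H68.G (cl)
open Pool.Agent.H58.W (up mem_up)

/-- the translation of the window -/
def vR (D : RG) (h : ℕ) (u : ℤ × ℤ) : ℤ × ℤ :=
  (u.1 + h * ((D.N : ℤ) - D.τ), u.2 - h * ((D.N : ℤ) - D.τ))

variable {D : RG} {X : Env} {h : ℕ} {u : ℤ × ℤ} {s : Finset ((ℤ × ℤ) ⊕ (ℕ × ℤ))} {n : ℤ}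

lemma csR_vR : csR D h u = (2 * (vR D h u).1, 2 * (vR D h u).2) := by
  unfold csR vR
  refine Prod.ext ?_ ?_ <;> simp only <;> ring

lemma cs_tR : Pool.Agent.H98.G.cs (tR D h u) = csR D h u := csR_tR.symm

lemma shc_vR (c : ℤ × ℤ) : shc (vR D h u) c = c + csR D h u := by
  rw [csR_vR]
  rfl

lemma shl_vR (A : Finset (ℤ × ℤ)) : shl (vR D h u) A = Pool.Agent.H98.G.sft (tR D h u) A := by
  ext e
  rw [mem_shl, Pool.Agent.H98.G.mem_sft, cs_tR, csR_vR]
  rfl

/-- membership in the back translate -/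
lemma mem_shl_neg {A : Finset (ℤ × ℤ)} {e : ℤ × ℤ} : e ∈ shl (-(vR D h u)) A ↔ e + csR D h u ∈ A := by
  rw [mem_shl, csR_vR]
  have e1 : ((e.1 - 2 * (-(vR D h u)).1, e.2 - 2 * (-(vR D h u)).2) : ℤ × ℤ) =
      e + (2 * (vR D h u).1, 2 * (vR D h u).2) := by
    refine Prod.ext ?_ ?_ <;> simp only [Prod.fst_neg, Prod.snd_neg, Prod.fst_add, Prod.snd_add] <;> ring
  rw [e1]

/-- **The increments in the window**, labels outside frozen. -/
theorem r3_ZR (hn : n = 2 * (h : ℤ)) (h2 : 2 ≤ n) (he : n % 2 = 0) (h4 : 4 ≤ h) (hX : PlaneK X)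
    (hbig : Free X.E u (4 * D.N * h + 1)) {Z : OutB ((D.cw (sc s)).win n h2 he) → Prop}
    (hO : ∀ (l0 : ℤ) (sg : ℤ → ℤ),
      MatA (nP ((D.cw (sc s)).win n h2 he)) (colp ((D.cw (sc s)).win n h2 he)) l0 sg →
      ∃ O : OutB ((D.cw (sc s)).win n h2 he), Z O ∧ (∀ e ∈ O.Wo, (e.1 + e.2) % 2 = 1) ∧
        ArcsAt ((D.cw (sc s)).win n h2 he) (WN O false) O.c0 l0 sg)
    (ω : Finset (ℤ × ℤ)) (hω : ω ⊆ (ZR D X h u s).E \
      shl (vR D h u) (EN ((D.cw (sc s)).win n h2 he) false)) :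
    (∀ c, RC (EN ((D.cw (sc s)).win n h2 he) false) c →
      ((ZR D X h u s).freeze (shl (vR D h u) (EN ((D.cw (sc s)).win n h2 he) false)) ω).inc
        (c + csR D h u) = 0) ∨
    ∃ O : OutB ((D.cw (sc s)).win n h2 he), Z O ∧ ∃ κ : ℤ,
      ∀ c, RC (EN ((D.cw (sc s)).win n h2 he) false) c →
        ((ZR D X h u s).freeze (shl (vR D h u) (EN ((D.cw (sc s)).win n h2 he) false)) ω).inc
          (c + csR D h u) = ph κ * (XN O false ∅).inc c := by
  classical
  subst hn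
  obtain ⟨W, hW⟩ := hX
  have hh : 0 < h := by omega
  have h4' : (4 : ℤ) ≤ h := by exact_mod_cast h4
  have hN2 : 2 ≤ D.N := by have := D.N_ge; have := D.hM; omega
  have hN2' : (2 : ℤ) ≤ D.N := by exact_mod_cast hN2
  have hNh : (8 : ℤ) ≤ D.N * h := by nlinarith
  set W0 := EN ((D.cw (sc s)).win (2 * (h : ℤ)) h2 he) false with hW0
  set Y := (ZR D X h u s).freeze (shl (vR D h u) W0) ω with hY
  have P1 : PlaneEnv (ZR D X h u s) (W ∪ ((up (D.RL h u) (D.bR h u) s \ NT D (sc s) h u) ∩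
      (X.E \ (X.E \ (D.RL h u \ NT D (sc s) h u))))) := hW.freeze _ _
  have P2 := P1.freeze (shl (vR D h u) W0) ω
  have P3 := planeEnv_sh (v := -(vR D h u)) P2
  rw [← hY] at P3
  set W2 := W ∪ ((up (D.RL h u) (D.bR h u) s \ NT D (sc s) h u) ∩
      (X.E \ (X.E \ (D.RL h u \ NT D (sc s) h u)))) ∪ (ω ∩ ((ZR D X h u s).E \ shl (vR D h u) W0)) with hW2
  -- the random labels
  have hsub : shl (vR D h u) W0 ⊆ (ZR D X h u s).E := by
    intro e hl
    rw [shl_vR, Pool.Agent.H98.G.mem_sft, cs_tR] at hl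
    have := win_sub_ZR (X := X) (u := u) (s := s) (by omega) h2 he hbig hl
    rwa [sub_add_cancel] at this
  have hYE : Y.E = shl (vR D h u) W0 := by
    rw [hY, Env.freeze_E]
    exact inter_eq_right.2 hsub
  have eY : (shX (-(vR D h u)) Y).E = W0 := by
    rw [Pool.Agent.H33.Sp.shX_E, hYE]
    exact shl_neg
  -- the plates
  have hV : ∀ t q, lt t ∉ W0 → D.rg (cl (2 * (h : ℤ)) (D.ow (2 * (h : ℤ))) t) = some q →
      (lt t ∈ shl (-(vR D h u)) W2 ↔ sc s q = true) := by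
    intro t q ht hq
    rw [mem_shl_neg]
    have ho := odd_lt_csR (D := D) (h := h) (u := u) t
    have hrt := rt_lt (D := D) (h := h) (u := u) t
    have hc := ct_rt (D := D) (u := u) hh (lt t + csR D h u)
    rw [hrt] at hc
    have hn0 : (0 : ℤ) < 2 * (h : ℤ) := by omega
    have hcl : cl (2 * (h : ℤ)) (D.ow (2 * (h : ℤ))) t = (t.1 / (2 * h), t.2 / (2 * h) - D.N + D.τ) := by
      unfold cl RG.ow
      simp only [sub_zero]
      refine Prod.ext rfl ?_
      simp only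
      rw [sub_eq_add_neg, ← mul_neg, Int.add_mul_ediv_left _ _ hn0.ne']
      ring
    rw [hcl, ← hc] at hq
    have hX1 : lt t + csR D h u ∈ X.E := by
      apply hbig
      exact RG.outer (N := D.N) hh (u := u) ho (D.rg_big hq)
    have hR : lt t + csR D h u ∈ D.RL h u := by
      rw [mem_RL hh, hq]
      exact ⟨ho, by simp⟩
    have hNT : lt t + csR D h u ∉ NT D (sc s) h u := by
      rw [mem_NT, hrt]
      rintro ⟨-, h3⟩
      exact ht (mem_EN.2 ((zn_iff D (sc s) h2 he).2 h3))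
    have hZ : lt t + csR D h u ∉ (ZR D X h u s).E := by
      rw [ZR_E]
      exact fun h3 => (mem_sdiff.1 h3).2 (mem_sdiff.2 ⟨hR, hNT⟩)
    have hWn : lt t + csR D h u ∉ W := fun h3 => disjoint_left.1 hW.disj hX1 h3
    rw [← mem_state (s := s) hh ho hq, hW2]
    simp only [mem_union, mem_inter, mem_sdiff]
    constructor
    · rintro ((h3 | ⟨⟨h3, -⟩, -⟩) | ⟨h3, h5, -⟩)
      · exact absurd h3 hWn
      · exact h3
      · exact absurd h5 hZ
    · intro h3
      exact Or.inl (Or.inr ⟨⟨h3, hNT⟩, hX1, fun h5 => h5.2 ⟨hR, hNT⟩⟩)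
  have hS : D.Solid (sc s) h2 he (shl (-(vR D h u)) W2) := by
    intro t q h3 h5
    exact hV t q (fun h6 => h3 (mem_EN.1 h6)) h5
  -- the root
  have hfar : ¬ Pool.Agent.H68.G.Sq (D.ow (2 * (h : ℤ))) (D.Rr (2 * (h : ℤ)) + 5)
      (tt (plab (shX (-(vR D h u)) Y).c0)) := by
    intro h3
    have hroot := X.plab_root
    apply hroot
    apply hbig
    have e1 : (shX (-(vR D h u)) Y).c0 = shc (-(vR D h u)) X.c0 := rfl
    have e2 : X.c0 = (shX (-(vR D h u)) Y).c0 + Pool.Agent.H98.G.cs (tR D h u) := by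
      rw [e1, cs_tR, csR_vR]
      unfold shc
      refine Prod.ext ?_ ?_ <;>
        simp only [Prod.fst_neg, Prod.snd_neg, Prod.fst_add, Prod.snd_add] <;> ring
    have htR : ((tR D h u).1 + (tR D h u).2) % 2 = 0 := by
      unfold tR
      simp only
      have : u.1 + u.2 + (u.2 - u.1 - 2 * (h : ℤ) * ((D.N : ℤ) - D.τ)) =
        2 * (u.2 - h * ((D.N : ℤ) - D.τ)) := by ring
      rw [this]
      omega
    set c' := (shX (-(vR D h u)) Y).c0 with hc'
    have hodd : ((plab c').1 + (plab c').2) % 2 = 1 := by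
      unfold plab
      split_ifs <;> simp only <;> omega
    rw [e2, Pool.Agent.H98.G.plab_cs htR, cs_tR, ← lt_tt hodd, lt_add_tR]
    set p := tt (plab c') with hp
    unfold Pool.Agent.H68.G.Sq RG.ow RG.Rr at h3
    simp only at h3
    unfold lt tR
    rw [Pool.Agent.H75.Perc.mem_Bx]
    simp only [Prod.fst_add, Prod.snd_add]
    have e3 : 2 * (h : ℤ) * D.N = 2 * (D.N * h) := by ring
    have e4 : 4 * (D.N : ℤ) * h = 4 * (D.N * h) := by ring
    rw [e3] at h3
    rw [e4]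
    obtain ⟨⟨a1, a2⟩, a3, a4⟩ := h3
    refine ⟨⟨?_, ?_⟩, ⟨?_, ?_⟩, ?_⟩ <;> omega
  have key := inc_actual h2 he (by omega) (Pool.Agent.H68.G.plates_win h2 he (by omega) hV) hS hO P3 eY hfar
  have hc : ∀ c, (shX (-(vR D h u)) Y).inc c = Y.inc (c + csR D h u) := by
    intro c
    have h3 := inc_sh (v := -(vR D h u)) (X := Y) (c + csR D h u)
    have e1 : shc (-(vR D h u)) (c + csR D h u) = c := by
      rw [csR_vR]
      unfold shc
      refine Prod.ext ?_ ?_ <;>
        simp only [Prod.fst_neg, Prod.snd_neg, Prod.fst_add, Prod.snd_add] <;> ring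
    rw [e1] at h3
    exact h3
  rcases key with h3 | ⟨O, hZ, κ, hκ⟩
  · left
    intro c hcc
    rw [← hc]
    refine h3 c ?_
    rw [eY]
    exact hcc
  · right
    refine ⟨O, hZ, κ, fun c hcc => ?_⟩
    rw [← hc]
    refine hκ c ?_
    rw [eY]
    exact hcc

end Pool.Agent.H26.W
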