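import Mathlib
import Pool.Agent.H26.W.RoomM
import Pool.Agent.H26.W.RoomR
import Pool.Agent.H98.G.MixG

set_option autoImplicit false
open Filter Topology

/-!
# Translation invariance in the room of the ring (W-G)

`roomTI_of` : `RoomTI`, from the realisation of every matching by a canonical outside.
-/

namespace Pool.Agent.H26.W

open Pool.Agent.Q1.M4 (Cell lat)
open Pool.Agent.Q1 (Env ph)
open Pool.Agent.Q1.M6c (PlaneK Free)
open Pool.Agent.H75.Perc (inB Bx)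
open Pool.Agent.H33.Q1 (tv)
open Pool.Agent.H65.G (RG)
open Pool.Agent.H66.W (LocTI tR ZR YR_ZR_pow csR)
open Pool.Agent.H59.J (OmR Mx Pos MixG ClR WR two_even ArcsAt)
open Pool.Agent.H74.Win (OutB EN WN XN)
open Pool.Agent.H46.Sp (Win)
open Pool.Agent.H13.Sp (nP colp)
open Pool.Agent.H40.W.R3 (MatA)
open Pool.Agent.H20.Sp (OutOK)
open Pool.Agent.H52.W (OTyN)
open Pool.Agent.H98.G (R3 exists_mix sft mem_sft cs)
open Pool.Agent.H74.R45 (RC)

/-- **Every matching is realised by a canonical outside.** -/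
def ExOut : Prop := ∀ (W : Win) (l0 : ℤ) (sg : ℤ → ℤ) (m : ℕ), 1 ≤ m →
  MatA (nP W) (colp W) l0 sg → ∃ O : OutB W, (OutOK O (m : ℤ) ∧ OTyN O) ∧
    (∀ e ∈ O.Wo, (e.1 + e.2) % 2 = 1) ∧ ArcsAt W (WN O false) O.c0 l0 sg

variable {D : RG} {X : Env} {h : ℕ} {u : ℤ × ℤ} {s : Finset ((ℤ × ℤ) ⊕ (ℕ × ℤ))}

lemma ph_norm' (k : ℤ) : ‖ph k‖ ≤ 1 := (Pool.Agent.Q1.ph_norm k).le

/-- the increments in the window -/
theorem r3_room (hO : ExOut) (h4 : 4 ≤ h) (h2 : (2 : ℤ) ≤ ((2 * h : ℕ) : ℤ)) (hX : PlaneK X)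
    (hbig : Free X.E u (4 * D.N * h + 1)) (ω : Finset (ℤ × ℤ))
    (hω : ω ⊆ (ZR D X h u s).E \ sft (tR D h u) (EN (WR D (sc s) h h2) false)) :
    R3 (ClR D) h (EN (WR D (sc s) h h2) false) (tR D h u)
      ((ZR D X h u s).freeze (sft (tR D h u) (EN (WR D (sc s) h h2) false)) ω) := by
  have key := r3_ZR (D := D) (X := X) (h := h) (u := u) (s := s) (n := ((2 * h : ℕ) : ℤ)) (by push_cast; rfl)
    h2 (two_even h) h4 hX hbig (Z := fun O => ClR D h _ O) (fun l0 sg hM => by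
      obtain ⟨O, ⟨h5, h6⟩, h7, h8⟩ := hO _ l0 sg h (by omega) hM
      refine ⟨O, ⟨h4, ⟨sc s, h2, rfl⟩, ⟨l0 + 1, ?_⟩, h5, h6⟩, h7, h8⟩
      rw [add_sub_cancel_right, hM.root.1, hM.root.2]
      simp) ω (by rw [shl_vR]; exact hω)
  rw [shl_vR] at key
  rcases key with h3 | ⟨O, hZ, κ, hκ⟩
  · right
    intro c hc
    rw [cs_tR]
    exact h3 c hc
  · left
    refine ⟨_, O, ph κ, hZ, rfl, ph_norm' κ, fun c hc => ?_⟩
    rw [cs_tR]
    exact hκ c hc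

/-- the middle box lies in the window -/
lemma mid_sft (hh : 0 < h) (h2 : (2 : ℤ) ≤ ((2 * h : ℕ) : ℤ)) (σ : ℕ × ℤ → Bool) :
    Bx (u.1 - rm D h) (u.1 + rm D h) (u.2 - rm D h) (u.2 + rm D h) ⊆
      sft (tR D h u) (EN (WR D σ h h2) false) := by
  intro e he
  rw [mem_sft]
  have h1 := mid_EN (D := D) hh σ he
  have e1 : cS (tW D h u) = cs (tR D h u) := rfl
  rw [e1] at h1
  unfold WR
  have key : ∀ (n : ℤ) (hn : n = 2 * (h : ℤ)) (h2 : 2 ≤ n) (he : n % 2 = 0),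
      e - cs (tR D h u) ∈ EN ((D.cw σ).win n h2 he) false := by
    intro n hn h2 he
    subst hn
    exact h1
  exact key _ (by push_cast; rfl) _ _

/-- **Translation invariance in the room.** -/
theorem roomTI_of (hO : ExOut) : RoomTI := by
  intro τ hτ
  refine ⟨fun _ => 0, fun D _ _ s U R h u X z ρ hU hR hh hρ hsc hz hX => ?_⟩
  classical
  have hhU : Tendsto h (U : Filter ℕ) atTop := hh.mono_left hU
  -- the mixtures
  have hm : ∀ᶠ j in (U : Filter ℕ), ∃ f : ℤ × ℤ → ℂ, Mx (ClR D) (h j) f ∧ ∀ v w : ℤ × ℤ,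
      20 * |v.1 - (u j).1| ≤ (D.N : ℤ) * h j → 20 * |v.2 - (u j).2| ≤ (D.N : ℤ) * h j →
      20 * |w.1 - (u j).1| ≤ (D.N : ℤ) * h j → 20 * |w.2 - (u j).2| ≤ (D.N : ℤ) * h j →
      (ZR D (X j) (h j) (u j) s).D v w =
        f (tv w - tR D (h j) (u j)) - f (tv v - tR D (h j) (u j)) := by
    filter_upwards [hX, hhU.eventually_ge_atTop 30] with j ⟨a1, a2⟩ a3
    have h2 : (2 : ℤ) ≤ ((2 * h j : ℕ) : ℤ) := by push_cast; omega
    obtain ⟨f, hf, hfD⟩ := exists_mix (Cl := ClR D) (m := h j) (W0 := EN (WR D (sc s) (h j) h2) false)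
      (t := tR D (h j) (u j)) (Z := ZR D (X j) (h j) (u j) s) (tW_even D (h j) (u j))
      (fun ω hω => r3_room hO (by omega) h2 a1 a2 ω hω)
    refine ⟨f, hf, fun v w b1 b2 b3 b4 => ?_⟩
    have hN : 1 ≤ D.N := by exact_mod_cast N_pos D
    have h30 : 30 ≤ D.N * h j := by nlinarith
    refine hfD _ _ _ _ (mid_sft (u := u j) (by omega) h2 (sc s)) v w ?_ ?_
    · exact (inB_mid (M := D.N * h j) (r := rm D (h j)) h30 rfl (by push_cast; exact b1)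
        (by push_cast; exact b2)).2
    · exact (inB_mid (M := D.N * h j) (r := rm D (h j)) h30 rfl (by push_cast; exact b3)
        (by push_cast; exact b4)).2
  obtain ⟨f, hf⟩ : ∃ f : ℕ → ℤ × ℤ → ℂ, ∀ᶠ j in (U : Filter ℕ), Mx (ClR D) (h j) (f j) ∧
      ∀ v w : ℤ × ℤ, 20 * |v.1 - (u j).1| ≤ (D.N : ℤ) * h j →
      20 * |v.2 - (u j).2| ≤ (D.N : ℤ) * h j → 20 * |w.1 - (u j).1| ≤ (D.N : ℤ) * h j →
      20 * |w.2 - (u j).2| ≤ (D.N : ℤ) * h j → (ZR D (X j) (h j) (u j) s).D v w =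
        f j (tv w - tR D (h j) (u j)) - f j (tv v - tR D (h j) (u j)) := by
    refine ⟨fun j => if hj : ∃ f : ℤ × ℤ → ℂ, Mx (ClR D) (h j) f ∧ ∀ v w : ℤ × ℤ,
      20 * |v.1 - (u j).1| ≤ (D.N : ℤ) * h j → 20 * |v.2 - (u j).2| ≤ (D.N : ℤ) * h j →
      20 * |w.1 - (u j).1| ≤ (D.N : ℤ) * h j → 20 * |w.2 - (u j).2| ≤ (D.N : ℤ) * h j →
      (ZR D (X j) (h j) (u j) s).D v w =
        f (tv w - tR D (h j) (u j)) - f (tv v - tR D (h j) (u j)) then hj.choose else 0, ?_⟩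
    filter_upwards [hm] with j hj
    simp only [dif_pos hj]
    exact hj.choose_spec
  exact room_of_mix hU hR hh hρ hsc hz hX hf

end Pool.Agent.H26.W
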