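import Mathlib
import Pool.Agent.H26.W.Room
import Pool.Agent.H26.W.Glue
import Pool.Agent.H6.W.WE
import Pool.Agent.H53.W.Top

set_option autoImplicit false

/-!
# The output of W-G

`tiDob_of_JB` : the local translation invariance for the lattice domains from the junction bound
and the existence of the outer crossing of the ring.
-/

namespace Pool.Agent.H26.W

open Pool.Agent.H58.W Pool.Agent.H6.W

/-- **The output of W-G** -/
theorem tiDob_of_JB (hO : ExOut) (c : ℝ) (hc : 0 < c) (hJB : JB c) :
    Pool.Agent.H66.W.TIDob := by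
  obtain ⟨C0, C, c', hc', hRS⟩ := Pool.Agent.H67.W.rs_E10
  exact tiDob_of_room (roomTI_of hO) (Pool.Agent.H6.W.locB_of_JB hc hJB) hRS hc'

/-- The final statement from the junction bound. -/
theorem full_of_JB (hO : ExOut) {c : ℝ} (hc : 0 < c) (hJB : JB c) :
    Pool.Agent.H53.ZF.Full := Pool.Agent.H53.W.full_of_tiDob (tiDob_of_JB hO c hc hJB)

end Pool.Agent.H26.W
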