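import Mathlib
import Pool.Agent.H26.W.Top
import Pool.Agent.H83.J.Top
import Pool.Agent.H61.W.JFinal
import Pool.Agent.H20.W.StSAll

set_option autoImplicit false

/-!
# Route W without hypotheses

`exOut` : every matching is realised by a canonical outside. `jb` : the junction bound. `tiDob` : the local
translation invariance of the primitives of the lattice domains. `full` : the final statement.
-/

namespace Pool.Agent.H26.W

/-- Every matching is realised by a canonical outside. -/
theorem exOut : ExOut := fun _ _ _ _ hm h => Pool.Agent.H83.J.exists_out h (by exact_mod_cast hm)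

/-- **The room of the ring is locally translation invariant.** -/
theorem roomTI : RoomTI := roomTI_of exOut

/-- **The junction bound.** -/
theorem jb : ∃ c : ℝ, 0 < c ∧ Pool.Agent.H6.W.JB c := Pool.Agent.H61.W.jb Pool.Agent.H20.W.stS

/-- **Local translation invariance for the lattice domains.** -/
theorem tiDob : Pool.Agent.H66.W.TIDob := by
  obtain ⟨c, hc, h⟩ := jb
  exact tiDob_of_JB exOut c hc h

/-- **The final statement.** -/
theorem full : Pool.Agent.H53.ZF.Full := Pool.Agent.H53.W.full_of_tiDob tiDob

end Pool.Agent.H26.W
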