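import Mathlib
import Pool.Agent.H58.W.EB
import Pool.Agent.H58.W.NearS
import Pool.Agent.H50.W.Plates
import Pool.Agent.H5.FM.Dis
import Pool.Agent.H21.FM.Inter
import Pool.Agent.Q1.M6f.GlueJ
import Pool.Agent.Q1.M6c.PlaneKDob
import Pool.Agent.Q1.M6c.Diff

set_option autoImplicit false
open Finset Filter Topology

/-! # Route W-G: interfaces

`JB` (through `LocB`) and `RS` and `J2n` give `HolDob`, hence Q1 and Q1SLE.

`N1T` : the limits of the primitives of the plane environments in a free box are holomorphic up to a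
multiple of `conj z`. `RoomU C` : uniform translation invariance for a room with one colour on every side.
`J2n` : `RoomU` for all coarse windows with `Dis`. `PlateCmp` : the ring of fine fair plates around a box changes
the primitive inside by a small amount. `topG` : the assembly. -/

namespace Pool.Agent.H26.W

open Pool.Agent.H75.Perc hiding WL CT hh PB ph
open Pool.Agent.H75.TwoArm Pool.Agent.Q1 Pool.Agent.H33.Q1
open Pool.Agent.Q1.M4 (Cell lat Om HolDob)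
open Pool.Agent.Q1.M6c (PlaneEnv PlaneK)
open Pool.Agent.Q1.M6f.Glue (JJ)
open Pool.Agent.H21.FM (GPrim)
open Pool.Agent.H5.FM (CW)
open Pool.Agent.H50.W Pool.Agent.H58.W Pool.Agent.H6.W

/-! ### The limits in a free box -/

/-- holomorphic up to a multiple of `conj z` -/
def QH (Ω : Set ℂ) (g : ℂ → ℂ) : Prop :=
  ∃ κ : ℂ, DifferentiableOn ℂ (fun z => g z - κ * (starRingEnd ℂ) z) Ω

/-- **The limits in a free box of a plane environment are holomorphic up to a multiple of `conj z`**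
(vertex frame, ball of radius `1 / 64` for a free box of half side `1`). -/
def N1T : Prop :=
  ∀ (U : Ultrafilter ℕ) (N : ℕ → ℕ) (X : ℕ → Env) (o : ℕ → ℤ × ℤ), Tendsto N (U : Filter ℕ) atTop →
    (∀ᶠ j in (U : Filter ℕ), PlaneK (X j) ∧
      Bx ((o j).1 - N j) ((o j).1 + N j) ((o j).2 - N j) ((o j).2 + N j) ⊆ (X j).E) →
    ∀ g : ℂ → ℂ, (∀ z ∈ Metric.ball (0 : ℂ) (1 / 64), ∀ v : ℕ → ℤ × ℤ,
      Tendsto (fun j => lat (v j - o j) / (((N j : ℝ)) : ℂ)) U (𝓝 z) →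
      Tendsto (fun j => ((((N j : ℝ)) ^ (-(2 / 3) : ℝ) : ℝ) : ℂ) * (X j).D (o j) (v j)) U (𝓝 (g z))) →
    QH (Metric.ball (0 : ℂ) (1 / 64)) g

/-! ### Rooms -/

/-- cells of a coarse window -/
noncomputable def cw (C : CW) : Finset Cell :=
  (Ico 0 C.H).biUnion fun Y => Ico (C.A Y) (C.B Y) ×ˢ {Y}

lemma mem_cw {C : CW} {c : Cell} :
    c ∈ cw C ↔ (0 ≤ c.2 ∧ c.2 < C.H) ∧ (C.A c.2 ≤ c.1 ∧ c.1 < C.B c.2) := by
  unfold cw
  simp only [mem_biUnion, mem_Ico, mem_product, mem_singleton]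
  constructor
  · rintro ⟨Y, h1, h2, rfl⟩
    exact ⟨h1, h2⟩
  · rintro ⟨h1, h2⟩
    exact ⟨c.2, h1, h2, rfl⟩

/-- the cells of `Q` and their eight neighbours -/
noncomputable def nb (Q : Finset Cell) : Finset Cell :=
  Q.biUnion fun q => Icc (q.1 - 1) (q.1 + 1) ×ˢ Icc (q.2 - 1) (q.2 + 1)

/-- **The colours `col` of the cells around the window are its colours**: constant on every side and around
every reflex corner; at a convex corner the diagonal cell has the colour of one of its two neighbours. -/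
structure Wall (C : CW) (col : Cell → Bool) : Prop where
  left : ∀ Y, 0 ≤ Y → Y < C.H → col (C.A Y - 1, Y) = C.CL Y
  right : ∀ Y, 0 ≤ Y → Y < C.H → col (C.B Y, Y) = C.CR Y
  bot : ∀ x, C.A 0 ≤ x → x < C.B 0 → col (x, -1) = C.CB
  top : ∀ x, C.A (C.H - 1) ≤ x → x < C.B (C.H - 1) → col (x, C.H) = C.CT
  ll : ∀ Y, 0 ≤ Y → Y + 1 < C.H → ∀ x, C.A (Y + 1) ≤ x → x < C.A Y → col (x, Y) = C.CL Y
  ul : ∀ Y, 0 ≤ Y → Y + 1 < C.H → ∀ x, C.A Y ≤ x → x < C.A (Y + 1) → col (x, Y + 1) = C.CL (Y + 1)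
  lr : ∀ Y, 0 ≤ Y → Y + 1 < C.H → ∀ x, C.B Y ≤ x → x < C.B (Y + 1) → col (x, Y) = C.CR Y
  ur : ∀ Y, 0 ≤ Y → Y + 1 < C.H → ∀ x, C.B (Y + 1) ≤ x → x < C.B Y → col (x, Y + 1) = C.CR (Y + 1)
  diag : ∀ c ∈ nb (cw C), c ∉ cw C → ∀ q ∈ cw C, (c.1, q.2) ∉ cw C → (q.1, c.2) ∉ cw C →
    |c.1 - q.1| = 1 → |c.2 - q.2| = 1 → col c = col (c.1, q.2) ∨ col c = col (q.1, c.2)

/-- the cells around the window are solid, with the colours `col`; the root is far -/
structure WallW (C : CW) (col : Cell → Bool) (n : ℤ) (Z : Env) (W : Finset (ℤ × ℤ)) : Prop where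
  solid : ∀ c ∈ nb (cw C), c ∉ cw C → ∀ e ∈ TL {c} n, (e ∈ W ↔ col c = true)
  root : lab Z.c0 ∉ TL (nb (cw C)) n ∧ plab Z.c0 ∉ TL (nb (cw C)) n

/-- the step function of a function on the tile grid at scale `2 h` -/
noncomputable def stf (h : ℕ) (Ht : ℤ × ℤ → ℂ) (z : ℂ) : ℂ :=
  (((2 * h : ℝ) ^ (-(2 / 3) : ℝ) : ℝ) : ℂ) * Ht (⌊2 * (h : ℝ) * z.re⌋, ⌊2 * (h : ℝ) * z.im⌋)

/-- the continuous region of the window -/
def OmC (C : CW) : Set ℂ := Om (cw C) (fun i : ℤ => (i : ℝ)) (fun i : ℤ => (i : ℝ))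

/-- **Uniform translation invariance for the room `C`** (tile frame): every plane environment with
the random labels `TL (cw C) (2 h)`, solid walls of the colours of `C`, arbitrary elsewhere. -/
def RoomU (C : CW) : Prop :=
  ∀ a b c d x y : ℝ, a < b → c < d → Set.Icc a b ×ℂ Set.Icc c d ⊆ OmC C →
    Set.Icc (a + x) (b + x) ×ℂ Set.Icc (c + y) (d + y) ⊆ OmC C → ∀ η > (0 : ℝ),
    ∃ h0 : ℕ, ∀ h : ℕ, h0 ≤ h → ∀ (col : Cell → Bool) (Z : Env) (W : Finset (ℤ × ℤ)) (Ht : ℤ × ℤ → ℂ),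
      Wall C col → PlaneEnv Z W → Z.E = TL (cw C) (2 * h) → WallW C col (2 * h) Z W → GPrim Z Ht →
      ‖JJ (stf h Ht) a b c d - JJ (stf h Ht) (a + x) (b + x) (c + y) (d + y)‖ ≤ η

/-- **(J_2n)** -/
def J2n : Prop := ∀ C : CW, C.Dis → RoomU C

/-! ### Plates -/

/-- average of the differences of the primitive inside `R` in the coin model with the blocks `b` -/
noncomputable def DB {β : Type*} [DecidableEq β] (X : Env) (b : ℤ × ℤ → β) (R : Finset (ℤ × ℤ))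
    (u v : ℤ × ℤ) : ℂ := EB (X.E \ R) b (fun ω => (X.freeze R ω).D u v)

/-- colour of a cell -/
def colp {κ : Type*} (pl : Cell → Option κ) (k : κ → Bool) (c : Cell) : Bool :=
  match pl c with
  | none => false
  | some i => k i

/-- **A ring of plates** around the room `Q`, centre `m`, size `T`, error `ε`. -/
structure Ring (T : ℕ) (m : Cell) (κ : Type) [DecidableEq κ] (pl : Cell → Option κ)
    (Q : Finset Cell) (C : (κ → Bool) → CW) (ε : ℝ) : Prop where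
  /-- the room is a coarse window for all colours of the plates -/
  cells : ∀ k, cw (C k) = Q
  dis : ∀ k, (C k).Dis
  wall : ∀ k, Wall (C k) (colp pl k)
  /-- the room is natural, its walls are plates -/
  nat : ∀ c ∈ Q, pl c = none
  sol : ∀ c ∈ nb Q, c ∉ Q → pl c ≠ none
  /-- sizes -/
  inn : RC (m.1 - T) (m.1 + T) (m.2 - T) (m.2 + T) ⊆ Q
  out : nb (nb Q) ⊆ RC (m.1 - 2 * T) (m.1 + 2 * T) (m.2 - 2 * T) (m.2 + 2 * T)
  pla : ∀ c, pl c ≠ none → c ∈ RC (m.1 - 2 * T) (m.1 + 2 * T) (m.2 - 2 * T) (m.2 + 2 * T)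
  /-- **comparison** -/
  cmp : ∃ h0 : ℕ, ∀ h : ℕ, h0 ≤ h → ∀ X : Env, PlaneK X →
    TL (RC (m.1 - 2 * T) (m.1 + 2 * T) (m.2 - 2 * T) (m.2 + 2 * T)) (2 * h) ⊆ X.E →
    ∀ u v : ℤ × ℤ, Qt (tv' h m).1 (h * T / 2) u.1 → Qt (tv' h m).2 (h * T / 2) u.2 →
      Qt (tv' h m).1 (h * T / 2) v.1 → Qt (tv' h m).2 (h * T / 2) v.2 →
      ‖X.D u v - DB X (bk (2 * (h : ℤ)) pl) (TL Q (2 * h)) u v‖ ≤ ε * ((h * T : ℕ) : ℝ) ^ (2 / 3 : ℝ)

/-- **Rings of plates with small error exist.** -/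
def PlateCmp : Prop :=
  ∀ ε > (0 : ℝ), ∃ (T : ℕ) (m : Cell) (κ : Type) (_ : DecidableEq κ) (pl : Cell → Option κ)
    (Q : Finset Cell) (C : (κ → Bool) → CW), 0 < T ∧ Ring T m κ pl Q C ε

/-! ### The assembly -/

/-- module (2), (3): 65, 58, 98 -/
def PlateSt : Prop := ∀ (C0 : ℕ) (C c : ℝ), 0 < c → LocB → RS C0 C c → PlateCmp

/-- module (A): 26 -/
def AsmSt : Prop := J2n → PlateCmp → N1T

/-- module (4): 66 -/
def HolSt : Prop := N1T → HolDob

/-- **W-G.** -/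
theorem topG (hP : PlateSt) (hA : AsmSt) (hH : HolSt) (hJ : J2n) (hL : LocB) {C0 : ℕ} {C c : ℝ}
    (hc : 0 < c) (hR : RS C0 C c) : HolDob :=
  hH (hA hJ (hP C0 C c hc hL hR))

end Pool.Agent.H26.W
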